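import Mathlib
import Pool.Agent.N750.Sch
import Pool.Agent.N750.Wir

/-!
Schmidt's subspace theorem with Nochka weights for linear forms on a fixed space, along an
ultrafilter of points which leaves all proper subspaces.
-/

set_option autoImplicit false
set_option linter.unusedSectionVars false

open Finset Filter Topology

namespace Pool.Agent.U937.Lin

open NumberField IsDedekindDomain Height Module
open Pool.Agent.W180.OP (Pl av wt nrm le_nrm nrm_pos wt_nonneg exists_nrm nrm_nonneg)
open Pool.Agent.N750 (Slow slow_const nrm_comb triv rk rk_empty rk_mono rk_indep wirs schSame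
  exists_completion exists_lim)

variable {K : Type} [Field K] [NumberField K] {α : Type}

/-- the estimate for independent forms -/
theorem indep {w : ℕ} {C : Type} [DecidableEq C] (𝓕 : Ultrafilter α) (S : Finset (Pl K))
    (B : C → Fin (w + 1) → K) (g : α → Fin (w + 1) → K)
    (hg : Tendsto (fun t => logHeight (g t)) 𝓕 atTop)
    (hnd : ∀ d : Fin (w + 1) → K, d ≠ 0 → ∀ᶠ t in 𝓕, ∑ j, d j * g t j ≠ 0)
    (b : Pl K → Finset C) (hb : ∀ v ∈ S, LinearIndepOn K B (b v : Set C)) (ε : ℝ) (hε : 0 < ε) :
    ∀ᶠ t in 𝓕, ∑ v ∈ S, ∑ c ∈ b v, wt v * (Real.log (nrm (av v) (g t)) -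
      Real.log (av v (∑ j, B c j * g t j))) ≤ (w + 1 + ε) * logHeight (g t) := by
  classical
  have hforms : ∀ v : Pl K, ∃ L : Fin (w + 1) → Fin (w + 1) → K, (Matrix.of L).det ≠ 0 ∧
      (v ∈ S → ∃ e : C → Fin (w + 1), Set.InjOn e (b v) ∧ (∀ c ∈ b v, L (e c) = B c) ∧
        ∀ a, a ∉ e '' (b v) → ∃ j, L a = Pi.single j 1) := by
    intro v
    by_cases hv : v ∈ S
    · have hlv : LinearIndependent K (fun c : b v => B c) := hb v hv
      obtain ⟨Bm, e, he1, he2, he3, he4⟩ := exists_completion (fun c : b v => B c) hlv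
      refine ⟨Bm, he4, fun _ => ⟨fun c => if h : c ∈ b v then e ⟨c, h⟩ else 0, ?_, ?_, ?_⟩⟩
      · intro c hc c' hc' h
        have hc1 : c ∈ b v := hc
        have hc1' : c' ∈ b v := hc'
        simp only [hc1, hc1', dif_pos] at h
        have := he1 h
        exact congrArg Subtype.val this
      · intro c hc
        simp only [hc, dif_pos]
        exact he2 ⟨c, hc⟩
      · intro a ha
        refine he3 a ?_
        rintro ⟨c, hc⟩
        apply ha
        refine ⟨c.1, c.2, ?_⟩
        simp only [c.2, dif_pos]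
        exact hc
    · refine ⟨fun a j => if a = j then 1 else 0, ?_, fun h => absurd h hv⟩
      have : (Matrix.of fun a j : Fin (w + 1) => (if a = j then 1 else 0 : K)) = 1 := by
        ext a j
        rw [Matrix.of_apply, Matrix.one_apply]
      rw [this, Matrix.det_one]
      exact one_ne_zero
  choose L hL1 hL2 using hforms
  have key := schSame (𝓕 : Filter α) (n := w + 1) (by omega) S L (fun v _ => hL1 v) g hg hnd ε hε
  have hgne : ∀ᶠ t in 𝓕, ∀ i, g t i ≠ 0 := by
    rw [Filter.eventually_all]
    intro i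
    have h1 := hnd (Pi.single i 1) (by
      intro h
      have := congrFun h i
      rw [Pi.single_eq_same] at this
      exact one_ne_zero this)
    filter_upwards [h1] with t ht
    intro h
    apply ht
    rw [Finset.sum_eq_single i]
    · rw [h, mul_zero]
    · intro j _ hj
      rw [Pi.single_eq_of_ne hj, zero_mul]
    · intro h
      exact absurd (Finset.mem_univ _) h
  filter_upwards [key, hgne] with t h1 h2
  refine (Finset.sum_le_sum fun v hv => ?_).trans (h1.trans (le_of_eq (by push_cast; ring)))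
  rw [← Finset.mul_sum]
  refine mul_le_mul_of_nonneg_left ?_ (wt_nonneg v)
  obtain ⟨e, he1, he2, he3⟩ := hL2 v hv
  have e1 : ∑ c ∈ b v, (Real.log (nrm (av v) (g t)) -
      Real.log (av v (∑ j, B c j * g t j))) = ∑ a ∈ (b v).image e,
      (Real.log (nrm (av v) (g t)) - Real.log (av v (∑ j, L v a j * g t j))) := by
    rw [Finset.sum_image he1]
    exact Finset.sum_congr rfl fun c hc => by rw [he2 c hc]
  rw [e1]
  refine Finset.sum_le_sum_of_subset_of_nonneg (Finset.subset_univ _) fun a _ ha => ?_
  obtain ⟨j, hj⟩ := he3 a (by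
    intro h
    apply ha
    rw [Finset.mem_image]
    obtain ⟨c, hc, hca⟩ := h
    exact ⟨c, hc, hca⟩)
  have e2 : ∑ i, L v a i * g t i = g t j := by
    rw [hj, Finset.sum_eq_single j]
    · rw [Pi.single_eq_same, one_mul]
    · intro i _ hi
      rw [Pi.single_eq_of_ne hi, zero_mul]
    · intro h
      exact absurd (Finset.mem_univ _) h
  rw [e2, sub_nonneg]
  exact Real.log_le_log ((av v).pos_iff.2 (h2 j)) (le_nrm (av v) (g t) j)

/-- **the subspace theorem with Nochka weights** -/
theorem sw {w : ℕ} {C : Type} [Fintype C] [DecidableEq C] (𝓕 : Ultrafilter α)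
    (S : Finset (Pl K)) (B : C → Fin (w + 1) → K) (hB : ∀ c, B c ≠ 0) (N : ℕ)
    (hN : ∀ A : Finset C, rk K B A ≤ w → A.card ≤ N + rk K B A)
    (g : α → Fin (w + 1) → K) (hg : Tendsto (fun t => logHeight (g t)) 𝓕 atTop)
    (hnd : ∀ d : Fin (w + 1) → K, d ≠ 0 → ∀ᶠ t in 𝓕, ∑ j, d j * g t j ≠ 0)
    (ε : ℝ) (hε : 0 < ε) :
    ∀ᶠ t in 𝓕, ∑ v ∈ S, ∑ c, wt v * (Real.log (nrm (av v) (g t)) -
      Real.log (av v (∑ j, B c j * g t j))) ≤ (2 * N + w + 1 + ε) * logHeight (g t) := by
  classical
  set H : α → ℝ := fun t => logHeight (g t) with hHdef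
  have hH : Tendsto H 𝓕 atTop := hg
  set E : C → α → K := fun c t => ∑ j, B c j * g t j with hEdef
  have hE : ∀ c, ∀ᶠ t in 𝓕, E c t ≠ 0 := fun c => hnd (B c) (hB c)
  set u : Pl K → C → α → ℝ := fun p c t => wt p * (Real.log (nrm (av p) (g t)) -
      Real.log (av p (E c t))) / H t with hu
  have hH0 : ∀ᶠ t in 𝓕, 0 < H t := hH.eventually_gt_atTop 0
  have hnrm1 : ∀ (p : Pl K) (x : K), nrm (av p) (fun _ : Fin 1 => x) = av p x := by
    intro p x
    unfold nrm
    exact ciSup_const
  have hlow : ∀ p c (η : ℝ), 0 < η → ∀ᶠ t in 𝓕, -η ≤ u p c t := by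
    intro p c η hη
    have h1 := nrm_comb hH p (fun _ : Fin 1 => E c) (fun j t => g t j)
      (fun _ j => fun _ => B c j) (fun _ j => slow_const hH (B c j))
      (fun _ => Eventually.of_forall fun t => rfl) ⟨0, hE c⟩ η hη
    filter_upwards [h1, hH0] with t h1 h2
    rw [hnrm1] at h1
    rw [hu]
    simp only
    rw [le_div_iff₀ h2, mul_sub]
    linarith
  have hone : ∀ (T : Finset (Pl K)) c (η : ℝ), 0 < η → ∀ᶠ t in 𝓕, ∑ p ∈ T, u p c t ≤ 1 + η := by
    intro T c η hη
    have h1 := triv hH T (fun j t => g t j) (fun j => fun _ => B c j)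
      (fun j => slow_const hH (B c j)) (by
        filter_upwards [hE c] with t ht
        intro h
        apply ht
        rw [← h]
        exact Finset.sum_congr rfl fun j _ => mul_comm _ _) η hη
    filter_upwards [h1, hH0] with t h1 h2
    have e1 : ∑ j, g t j * B c j = E c t := Finset.sum_congr rfl fun j _ => mul_comm _ _
    rw [e1] at h1
    rw [hu]
    simp only
    rw [← Finset.sum_div, div_le_iff₀ h2]
    refine h1.trans (le_of_eq ?_)
    show H t + η * H t = _
    ring
  have hup : ∀ p c (η : ℝ), 0 < η → ∀ᶠ t in 𝓕, u p c t ≤ 1 + η := by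
    intro p c η hη
    filter_upwards [hone {p} c η hη] with t h1
    rwa [Finset.sum_singleton] at h1
  choose Λ hΛ using fun p c => exists_lim 𝓕 (u p c) (-1) 2 (by
    filter_upwards [hlow p c 1 one_pos, hup p c 1 one_pos] with t h1 h2
    exact ⟨h1, by linarith⟩)
  have hΛ0 : ∀ p c, 0 ≤ Λ p c := by
    intro p c
    refine le_of_forall_pos_le_add fun η hη => ?_
    have := ge_of_tendsto (hΛ p c) (hlow p c η hη)
    linarith
  have hT : ∀ c, ∑ p ∈ S, 1 * Λ p c ≤ 1 := by
    intro c
    refine le_of_forall_pos_le_add fun η hη => ?_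
    have h1 : Tendsto (fun t => ∑ p ∈ S, 1 * u p c t) 𝓕 (𝓝 (∑ p ∈ S, 1 * Λ p c)) :=
      tendsto_finsetSum _ fun p _ => (hΛ p c).const_mul 1
    refine le_of_tendsto h1 ?_
    filter_upwards [hone S c η hη] with t h2
    simp_rw [one_mul]
    exact h2
  have hsupp : ∀ p ∈ S, ∀ A : Finset C, (∀ c ∈ A, 0 < Λ p c) → rk K B A ≤ w := by
    intro p _ A hA
    by_contra hcon
    push Not at hcon
    have hspanA : Submodule.span K (B '' A) = ⊤ := by
      apply Submodule.eq_top_of_finrank_eq
      have h1 : Module.finrank K (Submodule.span K (B '' A)) ≤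
        Module.finrank K (Fin (w + 1) → K) := Submodule.finrank_le _
      rw [Module.finrank_fin_fun] at h1 ⊢
      have h2 : w < Module.finrank K (Submodule.span K (B '' A)) := hcon
      omega
    have hAne : A.Nonempty := by
      rw [Finset.nonempty_iff_ne_empty]
      rintro rfl
      have := rk_empty (F := K) B
      omega
    let G : Fin A.card → α → K := fun i => E (A.equivFin.symm i).1
    have hfg : ∀ j : Fin (w + 1), ∃ s : Fin A.card → K,
        ∀ x : Fin (w + 1) → K, x j = ∑ i, s i * ∑ l, B (A.equivFin.symm i).1 l * x l := by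
      intro j
      have h2 : (Pi.single j 1 : Fin (w + 1) → K) ∈ Submodule.span K
          (Set.range fun i : Fin A.card => B (A.equivFin.symm i).1) := by
        have h3 : (Set.range fun i : Fin A.card => B (A.equivFin.symm i).1) = B '' A := by
          ext y
          constructor
          · rintro ⟨i, rfl⟩
            exact ⟨_, (A.equivFin.symm i).2, rfl⟩
          · rintro ⟨x, hx, rfl⟩
            exact ⟨A.equivFin ⟨x, hx⟩, by simp⟩
        rw [h3, hspanA]
        exact Submodule.mem_top
      obtain ⟨s, hs⟩ := (Submodule.mem_span_range_iff_exists_fun _).1 h2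
      refine ⟨s, fun x => ?_⟩
      have h3 : ∀ l, ∑ i, s i * B (A.equivFin.symm i).1 l = (Pi.single j 1 : Fin (w + 1) → K) l := by
        intro l
        rw [← hs, Finset.sum_apply]
        rfl
      calc x j = ∑ l, (Pi.single j 1 : Fin (w + 1) → K) l * x l := by
            rw [Finset.sum_eq_single j]
            · rw [Pi.single_eq_same, one_mul]
            · intro i _ hi
              rw [Pi.single_eq_of_ne hi, zero_mul]
            · intro h
              exact absurd (Finset.mem_univ _) h
        _ = ∑ l, (∑ i, s i * B (A.equivFin.symm i).1 l) * x l :=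
            Finset.sum_congr rfl fun l _ => by rw [h3]
        _ = _ := by
            simp_rw [Finset.sum_mul, Finset.mul_sum]
            rw [Finset.sum_comm]
            exact Finset.sum_congr rfl fun i _ => Finset.sum_congr rfl fun l _ => by ring
    choose s hs using hfg
    have hf0 : ∃ j : Fin (w + 1), ∀ᶠ t in 𝓕, g t j ≠ 0 := by
      refine ⟨0, ?_⟩
      have h1 := hnd (Pi.single 0 1) (by
        intro h
        have := congrFun h 0
        rw [Pi.single_eq_same] at this
        exact one_ne_zero this)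
      filter_upwards [h1] with t ht
      intro h
      apply ht
      rw [Finset.sum_eq_single 0]
      · rw [h, mul_zero]
      · intro j _ hj
        rw [Pi.single_eq_of_ne hj, zero_mul]
      · intro h
        exact absurd (Finset.mem_univ _) h
    obtain ⟨cm, hcm, hmin⟩ := A.exists_min_image (fun c => Λ p c) hAne
    have hpos := hA cm hcm
    have h5 := nrm_comb hH p (fun (j : Fin (w + 1)) t => g t j) G (fun j i => fun _ => s j i)
      (fun j i => slow_const hH (s j i)) (fun j => Eventually.of_forall fun t => hs j (g t)) hf0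
      (Λ p cm / 4) (by linarith)
    have h6 : ∀ᶠ t in 𝓕, ∀ c ∈ A, Λ p cm / 2 < u p c t := by
      rw [Filter.eventually_all_finset]
      intro c hc
      exact (hΛ p c).eventually_const_lt (by have := hmin c hc; linarith)
    obtain ⟨t, h7, h8, h9⟩ := (h5.and (h6.and hH0)).exists
    obtain ⟨i, hi⟩ := exists_nrm (av p) (Finset.card_pos.2 hAne) (fun i => G i t)
    have h10 := h8 _ (A.equivFin.symm i).2
    rw [hu] at h10
    simp only at h10
    rw [lt_div_iff₀ h9] at h10
    rw [← hi] at h7
    have h11 : 0 < Λ p cm * H t := mul_pos hpos h9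
    rw [mul_sub] at h10
    have h12 : wt p * Real.log (av p (G i t)) = wt p * Real.log (av p (E (A.equivFin.symm i).1 t)) :=
      rfl
    have h13 : wt p * Real.log (nrm (av p) (fun j => g t j)) =
      wt p * Real.log (nrm (av p) (g t)) := rfl
    linarith
  have hfin : ∑ p ∈ S, 1 * ∑ c, Λ p c ≤ 2 * N + w + 1 := by
    refine wirs (F := K) B w N (by rw [Module.finrank_fin_fun]) hN S (fun _ => 1)
      (fun _ _ => zero_le_one) Λ (fun p _ c => hΛ0 p c) hsupp hT ?_
    intro b hb
    simp_rw [one_mul]
    refine le_of_forall_pos_le_add fun η hη => ?_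
    have h1 : Tendsto (fun t => ∑ p ∈ S, ∑ c ∈ b p, u p c t) 𝓕
        (𝓝 (∑ p ∈ S, ∑ c ∈ b p, Λ p c)) :=
      tendsto_finsetSum _ fun p _ => tendsto_finsetSum _ fun c _ => hΛ p c
    refine le_of_tendsto h1 ?_
    filter_upwards [indep 𝓕 S B g hg hnd b hb η hη, hH0] with t h3 h4
    have h6 : ∑ p ∈ S, ∑ c ∈ b p, u p c t = (∑ p ∈ S, ∑ c ∈ b p, wt p *
        (Real.log (nrm (av p) (g t)) - Real.log (av p (E c t)))) / H t := by
      rw [hu]
      simp_rw [Finset.sum_div]
    rw [h6, div_le_iff₀ h4]
    exact h3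
  simp_rw [one_mul] at hfin
  have h1 : Tendsto (fun t => ∑ p ∈ S, ∑ c, u p c t) 𝓕 (𝓝 (∑ p ∈ S, ∑ c, Λ p c)) :=
    tendsto_finsetSum _ fun p _ => tendsto_finsetSum _ fun c _ => hΛ p c
  have h2 := h1.eventually_lt_const (show ∑ p ∈ S, ∑ c, Λ p c < 2 * N + w + 1 + ε by linarith)
  filter_upwards [h2, hH0] with t h3 h4
  have h6 : ∑ p ∈ S, ∑ c, u p c t = (∑ p ∈ S, ∑ c, wt p *
      (Real.log (nrm (av p) (g t)) - Real.log (av p (E c t)))) / H t := by
    rw [hu]
    simp_rw [Finset.sum_div]
  rw [h6, div_lt_iff₀ h4] at h3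
  exact h3.le

end Pool.Agent.U937.Lin
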