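import Mathlib
import Pool.Agent.N750.Wir

/-!
Linear algebra for linear systems of binary forms.
-/

set_option autoImplicit false
set_option linter.unusedSectionVars false

open Finset

namespace Pool.Agent.U937.Lin

open Module
open Pool.Agent.N750 (rk rk_empty rk_mono rk_card rk_sub rk_indep exists_sub vand_indep rk_ge bev)

/-- coordinates on a subspace -/
theorem exists_coord {k : Type} [Field k] {m : ℕ} (Λ : Submodule k (Fin m → k)) :
    ∃ (n : ℕ) (idx : Fin n → Fin m) (a : Fin n → Fin m → k), n = finrank k Λ ∧ (∀ i, a i ∈ Λ) ∧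
      (∀ i i', a i (idx i') = if i = i' then 1 else 0) ∧
      ∀ x ∈ Λ, ∀ j, x j = ∑ i, a i j * x (idx i) := by
  classical
  let ψ : Fin m → Module.Dual k Λ := fun j => (LinearMap.proj j) ∘ₗ Λ.subtype
  obtain ⟨n, idx, -, hli, hmem, -⟩ := exists_sub (F := k) ψ
  let R : Λ →ₗ[k] (Fin n → k) := LinearMap.pi fun i => ψ (idx i)
  have hinj : Function.Injective R := by
    rw [← LinearMap.ker_eq_bot, LinearMap.ker_eq_bot']
    intro x hx
    apply Subtype.ext
    funext j
    obtain ⟨s, hs⟩ := (Submodule.mem_span_range_iff_exists_fun _).1 (hmem j)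
    have h1 : ψ j x = 0 := by
      rw [← hs, LinearMap.sum_apply]
      refine Finset.sum_eq_zero fun i _ => ?_
      rw [LinearMap.smul_apply, show ψ (idx i) x = 0 from congrFun hx i, smul_zero]
    exact h1
  have hn1 : finrank k Λ ≤ n := by
    have := LinearMap.finrank_le_finrank_of_injective hinj
    rwa [Module.finrank_fin_fun] at this
  have hn2 : n ≤ finrank k Λ := by
    have := hli.fintype_card_le_finrank
    rwa [Fintype.card_fin, Subspace.dual_finrank_eq] at this
  have hn : n = finrank k Λ := le_antisymm hn2 hn1
  have hsurj : Function.Surjective R :=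
    (LinearMap.injective_iff_surjective_of_finrank_eq_finrank (by
      rw [Module.finrank_fin_fun]
      exact hn.symm)).1 hinj
  choose a ha using fun i : Fin n => hsurj (Pi.single i 1)
  refine ⟨n, idx, fun i => (a i : Fin m → k), hn, fun i => (a i).2, ?_, ?_⟩
  · intro i i'
    have h1 := congrFun (ha i) i'
    rw [Pi.single_apply] at h1
    show R (a i) i' = _
    rw [h1]
    by_cases h : i = i'
    · rw [if_pos h, if_pos h.symm]
    · rw [if_neg h, if_neg (Ne.symm h)]
  · intro x hx j
    have h1 : (⟨x, hx⟩ : Λ) = ∑ i, x (idx i) • a i := by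
      apply hinj
      rw [map_sum]
      simp_rw [map_smul, ha]
      funext i'
      rw [Finset.sum_apply, Finset.sum_eq_single i']
      · rw [Pi.smul_apply, Pi.single_eq_same, smul_eq_mul, mul_one]
        rfl
      · intro i _ hi
        rw [Pi.smul_apply, Pi.single_eq_of_ne (Ne.symm hi), smul_zero]
      · intro h
        exact absurd (Finset.mem_univ _) h
    have h2 := congrArg (fun y : Λ => (y : Fin m → k) j) h1
    simp only at h2
    rw [h2, AddSubmonoidClass.coe_finsetSum, Finset.sum_apply]
    refine Finset.sum_congr rfl fun i _ => ?_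
    rw [SetLike.val_smul, Pi.smul_apply, smul_eq_mul, mul_comm]

section rank

variable {F V C : Type} [Field F] [AddCommGroup V] [Module F V] [Module.Finite F V]
  [DecidableEq C]

/-- the count of the hyperplanes in the flats -/
theorem count [Fintype C] (B : C → V) (w z : ℕ) (hall : w ≤ rk F B Finset.univ)
    (hz : ∀ A : Finset C, rk F B A ≤ w → A.card ≤ z) (n : ℕ) :
    ∀ A : Finset C, Fintype.card C - A.card = n → rk F B A ≤ w → A.card + w ≤ z + rk F B A := by
  induction n with
  | zero =>
    intro A hn hA
    have h1 : A.card ≤ Fintype.card C := Finset.card_le_univ A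
    have h2 : A = Finset.univ := by
      rw [← Finset.card_eq_iff_eq_univ]
      omega
    subst h2
    have := hz _ hA
    omega
  | succ n ih =>
    intro A hn hA
    rcases Nat.lt_or_ge (rk F B A) w with h | h
    · have h1 : ∃ s, s ∉ A := by
        by_contra hcon
        push Not at hcon
        have : A = Finset.univ := Finset.eq_univ_iff_forall.2 hcon
        subst this
        omega
      obtain ⟨s, hs⟩ := h1
      have h2 := rk_sub (F := F) B A {s}
      have h3 := rk_card (F := F) B {s}
      rw [Finset.card_singleton] at h3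
      have h4 : (A ∪ {s}).card = A.card + 1 := by
        rw [Finset.card_union_of_disjoint (Finset.disjoint_singleton_right.2 hs),
          Finset.card_singleton]
      have h5 := ih (A ∪ {s}) (by rw [h4]; omega) (by omega)
      rw [h4] at h5
      omega
    · have := hz _ hA
      omega

end rank

/-- a linear form which vanishes on a family of deficient rank -/
theorem exists_rel {F C : Type} [Field F] {w : ℕ} (B : C → Fin (w + 1) → F) (A : Finset C)
    (hA : rk F B A ≤ w) : ∃ l : Fin (w + 1) → F, l ≠ 0 ∧ ∀ s ∈ A, ∑ i, l i * B s i = 0 := by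
  classical
  have h1 : Submodule.span F (B '' A) < ⊤ := by
    rw [lt_top_iff_ne_top]
    intro h
    have h2 : rk F B A = w + 1 := by
      unfold rk
      rw [h, finrank_top, Module.finrank_fin_fun]
    omega
  obtain ⟨φ, hφ, hker⟩ := Submodule.exists_le_ker_of_lt_top _ h1
  refine ⟨fun i => φ (Pi.single i 1), ?_, ?_⟩
  · intro h
    apply hφ
    refine LinearMap.pi_ext' fun i => ?_
    refine LinearMap.ext_ring ?_
    exact congrFun h i
  · intro s hs
    have h2 : φ (B s) = 0 := hker (Submodule.subset_span ⟨s, hs, rfl⟩)
    have h3 : B s = ∑ i, B s i • (Pi.single i 1 : Fin (w + 1) → F) := by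
      funext j
      rw [Finset.sum_apply, Finset.sum_eq_single j]
      · rw [Pi.smul_apply, Pi.single_eq_same, smul_eq_mul, mul_one]
      · intro i _ hi
        rw [Pi.smul_apply, Pi.single_eq_of_ne (Ne.symm hi), smul_zero]
      · intro h
        exact absurd (Finset.mem_univ _) h
    rw [h3, map_sum] at h2
    rw [← h2]
    refine Finset.sum_congr rfl fun i _ => ?_
    rw [map_smul, smul_eq_mul, mul_comm]

end Pool.Agent.U937.Lin
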