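import Mathlib
import Pool.Agent.N750.Seq
import Pool.Agent.U937.LinA
import Pool.Agent.U937.LinB

/-!
Points of degree `r` on the line and linear systems of binary forms.
-/

set_option autoImplicit false
set_option linter.unusedSectionVars false

open Finset Filter Topology

namespace Pool.Agent.U937.Lin

open NumberField IsDedekindDomain Height Module
open Pool.Agent.W180.OP (Pl av wt nrm le_nrm nrm_pos wt_nonneg exists_nrm nrm_nonneg)
open Pool.Agent.N750 (Slow slow_const nrm_comb triv rk rk_empty rk_mono rk_indep wirs schSame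
  exists_completion exists_lim bev IsNF isNF_height isNF_ne norm_prod loc_terms loc_cmp ab nf ef efn
  aeval_hom nrm_smul liouE logHeight_one vand_indep rk_ge)

variable {k K : Type} [Field k] [NumberField k] [Field K] [NumberField K] [Algebra k K]

open Classical in
/-- the data over the base field of a point of degree `r` -/
theorem pdata {q r : ℕ} (F : MvPolynomial (Fin 2) k) (H : Fin q → Fin 2 → K)
    (hF : F.map (algebraMap k K) = ∏ i, ∑ j, MvPolynomial.C (H i j) * MvPolynomial.X j)
    (hFq : F.IsHomogeneous q) (S : Finset (Pl k)) :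
    ∃ C : ℝ, 0 ≤ C ∧ ∀ (L : Type) [Field L] [NumberField L] [Algebra k L], finrank k L = r →
      ∀ (x : Fin 2 → L), x 0 ≠ 0 → MvPolynomial.aeval x F ≠ 0 →
      ∀ f : Fin (r + 1) → k, IsNF r (x 1 / x 0) f →
      f ≠ 0 ∧ (∀ s, bev r (fun j => algebraMap k K (f j)) (H s 1) (H s 0) ≠ 0) ∧
      logHeight f ≤ logHeight x + C ∧
      (finrank k K : ℝ) * ∑ v ∈ S, ∑ w ∈ ab L v, wt w * (q * Real.log (nrm (av w) x) -
        Real.log (av w (MvPolynomial.aeval x F))) ≤
        ∑ u ∈ S.biUnion (ab K), ∑ s, wt u *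
          (Real.log (nrm (av u) (fun j => algebraMap k K (f j))) -
          Real.log (av u (bev r (fun j => algebraMap k K (f j)) (H s 1) (H s 0)))) + C := by
  classical
  choose c hc0 hc using fun v : Pl k => loc_cmp v r
  have hl2 : 0 ≤ Real.log 2 := Real.log_nonneg (by norm_num)
  have hK : (0 : ℝ) ≤ finrank k K := Nat.cast_nonneg _
  set C1 : ℝ := finrank ℚ k * (r * Real.log 2) with hC1
  set C2 : ℝ := finrank k K * (q * ∑ v ∈ S, c v) with hC2
  have h1 : 0 ≤ C1 := by positivity
  have h2 : 0 ≤ C2 := by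
    refine mul_nonneg hK (mul_nonneg (Nat.cast_nonneg _) (Finset.sum_nonneg fun v _ => hc0 v))
  refine ⟨C1 + C2, by linarith, ?_⟩
  intro L _ _ _ hd x hx0 hFx f hf
  set y : L := x 1 / x 0 with hy
  set z : Fin 2 → L := ![1, y] with hz
  have hxz : x = fun l => x 0 * z l := by
    funext l
    fin_cases l
    · show x 0 = x 0 * 1
      rw [mul_one]
    · show x 1 = x 0 * y
      rw [hy]
      field_simp
  have hFxz : MvPolynomial.aeval x F = x 0 ^ q * MvPolynomial.aeval z F := by
    conv_lhs => rw [hxz]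
    exact aeval_hom hFq _ _
  have hFz : MvPolynomial.aeval z F ≠ 0 := by
    intro h
    apply hFx
    rw [hFxz, h, mul_zero]
  have hz0 : z ≠ 0 := fun h => one_ne_zero (congrFun h 0)
  have hNz : Algebra.norm k (MvPolynomial.aeval z F) ≠ 0 := Algebra.norm_ne_zero_iff.2 hFz
  have hzab : z = fun l => algebraMap k L ((![1, 0] : Fin 2 → k) l) +
      algebraMap k L ((![0, 1] : Fin 2 → k) l) * y := by
    funext l
    fin_cases l
    · show (1 : L) = algebraMap k L 1 + algebraMap k L 0 * y
      rw [map_one, map_zero, zero_mul, add_zero]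
    · show y = algebraMap k L 0 + algebraMap k L 1 * y
      rw [map_one, map_zero, zero_add, one_mul]
  have hprod := norm_prod F H hF (![1, 0] : Fin 2 → k) (![0, 1] : Fin 2 → k) y hf
  rw [← hzab] at hprod
  have hs1 : ∀ s, ∑ l, H s l * algebraMap k K ((![0, 1] : Fin 2 → k) l) = H s 1 := by
    intro s
    rw [Fin.sum_univ_two]
    show H s 0 * algebraMap k K 0 + H s 1 * algebraMap k K 1 = _
    rw [map_zero, map_one, mul_zero, zero_add, mul_one]
  have hs0 : ∀ s, ∑ l, H s l * algebraMap k K ((![1, 0] : Fin 2 → k) l) = H s 0 := by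
    intro s
    rw [Fin.sum_univ_two]
    show H s 0 * algebraMap k K 1 + H s 1 * algebraMap k K 0 = _
    rw [map_zero, map_one, mul_zero, add_zero, mul_one]
  have hf0 := isNF_ne hf
  have hloc := loc_terms H (![1, 0] : Fin 2 → k) (![0, 1] : Fin 2 → k) f _ hNz hf0 hprod S
  simp only [hs1, hs0] at hprod hloc
  refine ⟨hf0, ?_, ?_, ?_⟩
  · intro s
    have h3 : algebraMap k K (Algebra.norm k (MvPolynomial.aeval z F)) ≠ 0 :=
      (map_ne_zero _).2 hNz
    rw [hprod, Finset.prod_ne_zero_iff] at h3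
    exact h3 s (Finset.mem_univ _)
  · have h3 := isNF_height hd y hf
    have h4 : logHeight ![1, y] ≤ logHeight x := by
      have h5 : (![1, y] : Fin 2 → L) = (x 0)⁻¹ • x := by
        funext s
        fin_cases s
        · show (1 : L) = (x 0)⁻¹ * x 0
          rw [inv_mul_cancel₀ hx0]
        · show y = (x 0)⁻¹ * x 1
          rw [hy]
          field_simp
      rw [h5, logHeight_smul_eq_logHeight _ (inv_ne_zero hx0)]
    linarith
  · have hxip : ∀ w : Pl L, 0 < av w (x 0) := fun w => (av w).pos_iff.2 hx0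
    have hFzp : ∀ w : Pl L, 0 < av w (MvPolynomial.aeval z F) := fun w => (av w).pos_iff.2 hFz
    have e1 : ∀ w : Pl L, wt w * (q * Real.log (nrm (av w) x) -
          Real.log (av w (MvPolynomial.aeval x F))) = q * (wt w * Real.log (nrm (av w) z)) -
          wt w * Real.log (av w (MvPolynomial.aeval z F)) := by
      intro w
      have hzp := nrm_pos (av w) hz0
      have g1 : Real.log (nrm (av w) x) = Real.log (av w (x 0)) + Real.log (nrm (av w) z) := by
        conv_lhs => rw [hxz]
        rw [nrm_smul, Real.log_mul (hxip w).ne' hzp.ne']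
      have g2 : Real.log (av w (MvPolynomial.aeval x F)) = q * Real.log (av w (x 0)) +
          Real.log (av w (MvPolynomial.aeval z F)) := by
        rw [hFxz, map_mul, map_pow, Real.log_mul (pow_pos (hxip w) _).ne' (hFzp w).ne',
          Real.log_pow]
      rw [g1, g2]
      ring
    have e2 : ∀ v ∈ S, ∑ w ∈ ab L v, wt w * (q * Real.log (nrm (av w) x) -
        Real.log (av w (MvPolynomial.aeval x F))) ≤
        (q * (wt v * Real.log (nrm (av v) f)) - wt v * Real.log (av v (Algebra.norm k
          (MvPolynomial.aeval z F)))) + q * c v := by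
      intro v _
      rw [Finset.sum_congr rfl fun w _ => e1 w, Finset.sum_sub_distrib, ← Finset.mul_sum,
        nf v _ hFz]
      have h3 := hc v L hd y f hf
      have h4 := mul_le_mul_of_nonneg_left h3 (Nat.cast_nonneg (α := ℝ) q)
      linarith
    have e3 := Finset.sum_le_sum e2
    rw [Finset.sum_add_distrib, ← Finset.mul_sum] at e3
    have e4 := mul_le_mul_of_nonneg_left e3 hK
    rw [mul_add, hloc] at e4
    linarith

/-- the special subspaces -/
def Sp {q r : ℕ} (H : Fin q → Fin 2 → K) (t : ℝ) (Λ : Submodule k (Fin (r + 1) → k)) : Prop :=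
  2 ≤ finrank k Λ ∧ ∃ G ∈ Submodule.span K ((fun (c : Fin (r + 1) → k) (j : Fin (r + 1)) =>
      algebraMap k K (c j)) '' (Λ : Set (Fin (r + 1) → k))), G ≠ 0 ∧
    ∃ A : Finset (Fin q), (∀ s ∈ A, bev r G (H s 1) (H s 0) = 0) ∧
      (finrank k Λ : ℝ) + 2 * (r - A.card) < t + 2

/-- **points of degree `r` outside finitely many special linear systems** -/
theorem core {q r : ℕ} (hrq : r ≤ q) (F : MvPolynomial (Fin 2) k) (H : Fin q → Fin 2 → K)
    (hF : F.map (algebraMap k K) = ∏ i, ∑ j, MvPolynomial.C (H i j) * MvPolynomial.X j)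
    (hFq : F.IsHomogeneous q) (hD : ∀ i j, i ≠ j → H i 0 * H j 1 ≠ H i 1 * H j 0)
    (S : Finset (Pl k)) (t : ℝ) (ht : t ≤ 2 * r) (ε : ℝ) (hε : 0 < ε) :
    ∃ (𝓛 : Finset (Submodule k (Fin (r + 1) → k))) (C : ℝ), (∀ Λ ∈ 𝓛, Sp H t Λ) ∧
      ∀ (L : Type) [Field L] [NumberField L] [Algebra k L], finrank k L = r →
      ∀ (x : Fin 2 → L), x 0 ≠ 0 → MvPolynomial.aeval x F ≠ 0 →
      ∀ f : Fin (r + 1) → k, IsNF r (x 1 / x 0) f → (∀ Λ ∈ 𝓛, f ∉ Λ) →
      ∑ v ∈ S, ∑ w ∈ ab L v, wt w * (q * Real.log (nrm (av w) x) -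
        Real.log (av w (MvPolynomial.aeval x F))) ≤ (2 * r - t + ε) * logHeight x + C := by
  classical
  obtain ⟨C1, hC1, hpd⟩ := pdata (r := r) F H hF hFq S
  by_contra hcon
  push Not at hcon
  set SK := S.biUnion (ab K) with hSK
  have hK1 : (1 : ℝ) ≤ finrank k K := by
    exact_mod_cast (show 1 ≤ finrank k K from finrank_pos)
  let I := Finset {Λ : Submodule k (Fin (r + 1) → k) // Sp H t Λ} × ℕ
  have hseq : ∀ i : I, ∃ (f : Fin (r + 1) → k) (h P : ℝ), 0 ≤ h ∧ f ≠ 0 ∧
      (∀ s, bev r (fun j => algebraMap k K (f j)) (H s 1) (H s 0) ≠ 0) ∧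
      logHeight f ≤ h + C1 ∧ (2 * r - t + ε) * h + i.2 < P ∧
      (finrank k K : ℝ) * P ≤ ∑ u ∈ SK, ∑ s, wt u *
          (Real.log (nrm (av u) (fun j => algebraMap k K (f j))) -
          Real.log (av u (bev r (fun j => algebraMap k K (f j)) (H s 1) (H s 0)))) + C1 ∧
      ∀ Λ ∈ i.1, f ∉ Λ.1 := by
    rintro ⟨𝓛, m⟩
    obtain ⟨L, _, _, _, hd, x, hx0, hFx, f, hf, hfL, hP⟩ := hcon (𝓛.image Subtype.val) m (by
      intro Λ hΛ
      rw [Finset.mem_image] at hΛ
      obtain ⟨Λ', -, rfl⟩ := hΛ
      exact Λ'.2)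
    obtain ⟨h1, h2, h3, h4⟩ := hpd L hd x hx0 hFx f hf
    exact ⟨f, logHeight x, _, logHeight_nonneg _, h1, h2, h3, hP, h4, fun Λ hΛ =>
      hfL _ (Finset.mem_image_of_mem _ hΛ)⟩
  choose f h P hh0 hf0 hE0 hfh hP1 hP2 hfL using hseq
  let 𝓤 : Ultrafilter I := Ultrafilter.of atTop
  have hle : (𝓤 : Filter I) ≤ atTop := Ultrafilter.of_le _
  have hinf : Tendsto (fun i : I => (i.2 : ℝ)) 𝓤 atTop := by
    refine Tendsto.mono_left ?_ hle
    refine tendsto_natCast_atTop_atTop.comp ?_
    show Tendsto Prod.snd (atTop : Filter (Finset _ × ℕ)) atTop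
    rw [← prod_atTop_atTop_eq]
    exact tendsto_snd
  have havoid : ∀ Λ : Submodule k (Fin (r + 1) → k), Sp H t Λ → ∀ᶠ i in 𝓤, f i ∉ Λ := by
    intro Λ hΛ
    refine hle ?_
    filter_upwards [eventually_ge_atTop (({⟨Λ, hΛ⟩}, 0) : I)] with i hi
    exact hfL i ⟨Λ, hΛ⟩ (hi.1 (Finset.mem_singleton_self _))
  -- the minimal subspace
  have hex : ∃ n, ∃ Λ : Submodule k (Fin (r + 1) → k), finrank k Λ = n ∧ ∀ᶠ i in 𝓤, f i ∈ Λ :=
    ⟨_, ⊤, rfl, Eventually.of_forall fun i => Submodule.mem_top⟩
  obtain ⟨Λ₀, hΛ₀n, hΛ₀⟩ := Nat.find_spec hex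
  have hmin : ∀ Λ' : Submodule k (Fin (r + 1) → k), (∀ᶠ i in 𝓤, f i ∈ Λ') → Λ₀ ≤ Λ' := by
    intro Λ' h'
    have h1 : ∀ᶠ i in 𝓤, f i ∈ Λ₀ ⊓ Λ' := by
      filter_upwards [hΛ₀, h'] with i h2 h3
      exact ⟨h2, h3⟩
    have h2 := Nat.find_min' hex ⟨Λ₀ ⊓ Λ', rfl, h1⟩
    rw [← hΛ₀n] at h2
    have h3 := Submodule.eq_of_le_of_finrank_le (inf_le_left : Λ₀ ⊓ Λ' ≤ Λ₀) h2
    exact inf_eq_left.1 h3
  obtain ⟨n, idx, a, hn, ha, hδ, hcoord⟩ := exists_coord Λ₀
  set fK : I → Fin (r + 1) → K := fun i j => algebraMap k K (f i j) with hfK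
  set gK : I → Fin n → K := fun i l => fK i (idx l) with hgK
  have hfg : ∀ᶠ i in 𝓤, ∀ j, fK i j = ∑ l, algebraMap k K (a l j) * gK i l := by
    filter_upwards [hΛ₀] with i hi j
    simp only [hfK, hgK]
    rw [hcoord (f i) hi j, map_sum]
    exact Finset.sum_congr rfl fun l _ => by rw [map_mul]
  -- heights
  have htriv : ∃ C2 : ℝ, ∀ i, ∑ u ∈ SK, ∑ s, wt u * (Real.log (nrm (av u) (fK i)) -
      Real.log (av u (bev r (fK i) (H s 1) (H s 0)))) ≤ q * logHeight (fK i) + C2 := by
    refine ⟨∑ s : Fin q, (logHeight (Fin.cons 1 (fun j : Fin (r + 1) =>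
      H s 1 ^ j.1 * H s 0 ^ (r - j.1)) : Fin (r + 1 + 1) → K) +
        finrank ℚ K * Real.log (max 1 ((r + 1 : ℕ) : ℝ))), fun i => ?_⟩
    rw [Finset.sum_comm]
    have h1 : ∀ s ∈ (Finset.univ : Finset (Fin q)), ∑ u ∈ SK, wt u *
        (Real.log (nrm (av u) (fK i)) - Real.log (av u (bev r (fK i) (H s 1) (H s 0)))) ≤
        logHeight (fK i) + (logHeight (Fin.cons 1 (fun j : Fin (r + 1) =>
        H s 1 ^ j.1 * H s 0 ^ (r - j.1)) : Fin (r + 1 + 1) → K) +
        finrank ℚ K * Real.log (max 1 ((r + 1 : ℕ) : ℝ))) := fun s _ =>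
      liouE (fK i) (fun j => H s 1 ^ j.1 * H s 0 ^ (r - j.1)) (hE0 i s) SK
    refine (Finset.sum_le_sum h1).trans (le_of_eq ?_)
    rw [Finset.sum_add_distrib, Finset.sum_const, Finset.card_univ, Fintype.card_fin,
      nsmul_eq_mul]
  obtain ⟨C2, hC2⟩ := htriv
  have h2r : 0 ≤ 2 * (r : ℝ) - t + ε := by linarith
  have hfKinf : Tendsto (fun i => logHeight (fK i)) 𝓤 atTop := by
    have h1 : ∀ i : I, ((i.2 : ℝ) - (C2 + C1)) / (q + 1) ≤ logHeight (fK i) := by
      intro i
      rw [div_le_iff₀ (by positivity)]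
      have e1 := hP1 i
      have e2 := hP2 i
      have e3 := hC2 i
      have e4 : 0 ≤ (2 * (r : ℝ) - t + ε) * h i := mul_nonneg h2r (hh0 i)
      have e5 : (0 : ℝ) ≤ i.2 := Nat.cast_nonneg _
      have e6 : P i ≤ finrank k K * P i := by nlinarith
      have e7 : 0 ≤ logHeight (fK i) := logHeight_nonneg _
      have e8 : ∑ u ∈ SK, ∑ s, wt u * (Real.log (nrm (av u) (fun j => algebraMap k K (f i j))) -
          Real.log (av u (bev r (fun j => algebraMap k K (f i j)) (H s 1) (H s 0)))) =
          ∑ u ∈ SK, ∑ s, wt u * (Real.log (nrm (av u) (fK i)) -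
          Real.log (av u (bev r (fK i) (H s 1) (H s 0)))) := rfl
      rw [e8] at e2
      nlinarith
    refine tendsto_atTop_mono h1 ?_
    refine Tendsto.atTop_div_const (by positivity) ?_
    exact tendsto_atTop_add_const_right _ _ hinf
  have hgKinf : Tendsto (fun i => logHeight (gK i)) 𝓤 atTop := by
    set A : Fin (r + 1) × Fin n → K := fun p => algebraMap k K (a p.2 p.1) with hA
    have h1 : ∀ᶠ i in 𝓤, logHeight (fK i) + -(Height.totalWeight K * Real.log (Nat.card (Fin n)) +
        logHeight A) ≤ logHeight (gK i) := by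
      filter_upwards [hfg] with i hi
      have h2 := logHeight_linearMap_apply_le A (gK i)
      have h3 : (fun j => ∑ l, A (j, l) * gK i l) = fK i := by
        funext j
        exact (hi j).symm
      rw [h3] at h2
      linarith
    exact tendsto_atTop_mono' _ h1 (tendsto_atTop_add_const_right _ _ hfKinf)
  -- the dimension
  have hn2 : 2 ≤ n := by
    by_contra hlt
    have h1 : n = 0 ∨ n = 1 := by omega
    rcases h1 with h1 | h1
    · subst h1
      obtain ⟨i, hi⟩ := hfg.exists
      apply hf0 i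
      funext j
      have h2 := hi j
      rw [Finset.univ_eq_empty, Finset.sum_empty] at h2
      exact (map_eq_zero _).1 h2
    · subst h1
      obtain ⟨i, hi⟩ := (hgKinf.eventually_ge_atTop 1).exists
      rw [Pool.Agent.N750.logHeight_one] at hi
      linarith
  obtain ⟨w, rfl⟩ : ∃ w, n = w + 1 := ⟨n - 1, by omega⟩
  have hw1 : 1 ≤ w := by omega
  have hnsp : ¬ Sp H t Λ₀ := by
    intro hsp
    obtain ⟨i, h1, h2⟩ := (hΛ₀.and (havoid Λ₀ hsp)).exists
    exact h2 h1
  have hns : ∀ G ∈ Submodule.span K ((fun (c : Fin (r + 1) → k) (j : Fin (r + 1)) =>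
      algebraMap k K (c j)) '' (Λ₀ : Set (Fin (r + 1) → k))), G ≠ 0 →
      ∀ A : Finset (Fin q), (∀ s ∈ A, bev r G (H s 1) (H s 0) = 0) →
      t + 2 ≤ (w : ℝ) + 1 + 2 * (r - A.card) := by
    intro G hG hG0 A hA
    by_contra hlt
    push Not at hlt
    refine hnsp ⟨by omega, G, hG, hG0, A, hA, ?_⟩
    rw [← hn]
    push_cast
    exact hlt
  -- nondegeneracy
  have hnd : ∀ d : Fin (w + 1) → K, d ≠ 0 → ∀ᶠ i in 𝓤, ∑ l, d l * gK i l ≠ 0 := by
    intro d hd
    by_contra hcon2
    rw [Ultrafilter.eventually_not, not_not] at hcon2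
    let Λ' : Submodule k (Fin (r + 1) → k) :=
      { carrier := {x | ∑ l, d l * algebraMap k K (x (idx l)) = 0}
        add_mem' := by
          intro x y hx hy
          show ∑ l, d l * algebraMap k K (x (idx l) + y (idx l)) = 0
          simp_rw [map_add, mul_add]
          rw [Finset.sum_add_distrib]
          rw [show ∑ l, d l * algebraMap k K (x (idx l)) = 0 from hx,
            show ∑ l, d l * algebraMap k K (y (idx l)) = 0 from hy, add_zero]
        zero_mem' := by
          show ∑ l, d l * algebraMap k K (0 : k) = 0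
          simp
        smul_mem' := by
          intro c x hx
          show ∑ l, d l * algebraMap k K (c * x (idx l)) = 0
          simp_rw [map_mul]
          have h1 : ∀ l, d l * (algebraMap k K c * algebraMap k K (x (idx l))) =
              algebraMap k K c * (d l * algebraMap k K (x (idx l))) := fun l => by ring
          rw [Finset.sum_congr rfl fun l _ => h1 l, ← Finset.mul_sum,
            show ∑ l, d l * algebraMap k K (x (idx l)) = 0 from hx, mul_zero] }
    have h1 := hmin Λ' hcon2
    apply hd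
    funext l
    have h2 : ∑ l', d l' * algebraMap k K (a l (idx l')) = 0 := h1 (ha l)
    simp_rw [hδ] at h2
    rw [Finset.sum_eq_single l] at h2
    · rw [if_pos rfl, map_one, mul_one] at h2
      exact h2
    · intro l' _ hl'
      rw [if_neg (Ne.symm hl'), map_zero, mul_zero]
    · intro h
      exact absurd (Finset.mem_univ _) h
  -- the forms
  set B : Fin q → Fin (w + 1) → K := fun s l =>
    bev r (fun j => algebraMap k K (a l j)) (H s 1) (H s 0) with hB
  have hbl : ∀ (G : Fin (w + 1) → K) (s : Fin q), bev r (fun j => ∑ l, algebraMap k K (a l j) * G l)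
      (H s 1) (H s 0) = ∑ l, B s l * G l := by
    intro G s
    rw [hB]
    unfold bev
    simp_rw [Finset.sum_mul]
    rw [Finset.sum_comm]
    exact Finset.sum_congr rfl fun l _ => Finset.sum_congr rfl fun j _ => by ring
  have hEg : ∀ᶠ i in 𝓤, ∀ s, bev r (fK i) (H s 1) (H s 0) = ∑ l, B s l * gK i l := by
    filter_upwards [hfg] with i hi s
    rw [← hbl]
    congr 1
    funext j
    exact hi j
  have hB0 : ∀ s, B s ≠ 0 := by
    intro s hs
    obtain ⟨i, hi⟩ := hEg.exists
    apply hE0 i s
    show bev r (fK i) (H s 1) (H s 0) = 0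
    rw [hi s, hs]
    simp
  -- the rank
  have hall : w ≤ rk K B Finset.univ := by
    let Φ : (Fin (r + 1) → K) →ₗ[K] (Fin (w + 1) → K) :=
      { toFun := fun v l => ∑ j, algebraMap k K (a l j) * v j
        map_add' := by
          intro x y
          funext l
          show ∑ j, algebraMap k K (a l j) * (x j + y j) = ∑ j, algebraMap k K (a l j) * x j +
            ∑ j, algebraMap k K (a l j) * y j
          rw [← Finset.sum_add_distrib]
          exact Finset.sum_congr rfl fun j _ => by ring
        map_smul' := by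
          intro c x
          funext l
          show ∑ j, algebraMap k K (a l j) * (c * x j) = c * ∑ j, algebraMap k K (a l j) * x j
          rw [Finset.mul_sum]
          exact Finset.sum_congr rfl fun j _ => by ring }
    have hΦ : Function.Surjective Φ := by
      intro y
      refine ⟨fun j => ∑ l, y l * (if j = idx l then 1 else 0), ?_⟩
      funext l'
      show ∑ j, algebraMap k K (a l' j) * ∑ l, y l * (if j = idx l then 1 else 0) = y l'
      simp_rw [Finset.mul_sum]
      rw [Finset.sum_comm]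
      have h1 : ∀ l, ∑ j, algebraMap k K (a l' j) * (y l * (if j = idx l then 1 else 0)) =
          if l' = l then y l else 0 := by
        intro l
        rw [Finset.sum_eq_single (idx l)]
        · rw [if_pos rfl, hδ]
          by_cases h : l' = l
          · rw [if_pos h, if_pos h, map_one, one_mul, mul_one]
          · rw [if_neg h, if_neg h, map_zero, zero_mul]
        · intro j _ hj
          rw [if_neg hj, mul_zero, mul_zero]
        · intro h
          exact absurd (Finset.mem_univ _) h
      rw [Finset.sum_congr rfl fun l _ => h1 l, Finset.sum_ite_eq]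
      simp
    obtain ⟨A, -, hA⟩ := Finset.exists_subset_card_eq (s := (Finset.univ : Finset (Fin q)))
      (n := r) (by rw [Finset.card_univ, Fintype.card_fin]; exact hrq)
    have h1 := vand_indep (fun s : Fin q => H s 1) (fun s => H s 0) r A (by omega) (by
      intro s _
      by_contra hcon2
      push Not at hcon2
      obtain ⟨i⟩ : Nonempty I := inferInstance
      apply hE0 i s
      unfold bev
      refine Finset.sum_eq_zero fun j _ => ?_
      rw [hcon2.1, hcon2.2]
      have hj := j.2
      have hr0 : r ≠ 0 := by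
        have := Submodule.finrank_le Λ₀
        rw [Module.finrank_fin_fun] at this
        omega
      rcases Nat.eq_zero_or_pos j.1 with h0 | h0
      · rw [h0, Nat.sub_zero, zero_pow hr0, mul_zero, mul_zero]
      · rw [zero_pow (by omega : j.1 ≠ 0), zero_mul, mul_zero]) (by
      intro s _ s' _ hss h2
      apply hD s s' hss
      linear_combination -h2)
    have h2 := rk_ge Φ hΦ _ A h1
    rw [hA, Module.finrank_fin_fun, Module.finrank_fin_fun] at h2
    have h3 : (fun c => Φ (fun j : Fin (r + 1) => H c 1 ^ j.1 * H c 0 ^ (r - j.1))) = B := rfl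
    rw [h3] at h2
    have h4 := rk_mono (F := K) B A Finset.univ (Finset.subset_univ _)
    omega
  -- the number of points of the divisor on the members
  set Z : Finset (Finset (Fin q)) := Finset.univ.filter fun A => rk K B A ≤ w with hZ
  have hZne : Z.Nonempty := ⟨∅, by
    rw [hZ, Finset.mem_filter]
    refine ⟨Finset.mem_univ _, ?_⟩
    rw [rk_empty]
    exact Nat.zero_le _⟩
  obtain ⟨A₀, hA₀, hsup⟩ := Finset.exists_max_image Z Finset.card hZne
  have hA₀w : rk K B A₀ ≤ w := (Finset.mem_filter.1 hA₀).2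
  have hz : ∀ A : Finset (Fin q), rk K B A ≤ w → A.card ≤ A₀.card := fun A hA =>
    hsup A (Finset.mem_filter.2 ⟨Finset.mem_univ _, hA⟩)
  have hcount := fun A hA => count B w A₀.card hall hz _ A rfl hA
  have hwz : w ≤ A₀.card := by
    have h1 := hcount ∅ (by
      rw [rk_empty]
      exact Nat.zero_le _)
    rw [rk_empty, Finset.card_empty] at h1
    omega
  have hN : ∀ A : Finset (Fin q), rk K B A ≤ w → A.card ≤ (A₀.card - w) + rk K B A := by
    intro A hA
    have := hcount A hA
    omega
  -- the member through many points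
  obtain ⟨l, hl0, hl⟩ := exists_rel B A₀ hA₀w
  have hspec := hns (fun j => ∑ i, algebraMap k K (a i j) * l i) (by
      have h1 : (fun j => ∑ i, algebraMap k K (a i j) * l i) =
          ∑ i, l i • (fun j : Fin (r + 1) => algebraMap k K (a i j)) := by
        funext j
        rw [Finset.sum_apply]
        exact Finset.sum_congr rfl fun i _ => by rw [Pi.smul_apply, smul_eq_mul, mul_comm]
      rw [h1]
      refine Submodule.sum_mem _ fun i _ => Submodule.smul_mem _ _ (Submodule.subset_span ?_)
      exact ⟨a i, ha i, rfl⟩) (by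
      intro h
      apply hl0
      funext i
      have h1 := congrFun h (idx i)
      simp only [hδ, Pi.zero_apply] at h1
      rw [Finset.sum_eq_single i] at h1
      · rw [if_pos rfl, map_one, one_mul] at h1
        exact h1
      · intro i' _ hi'
        rw [if_neg hi', map_zero, zero_mul]
      · intro h
        exact absurd (Finset.mem_univ _) h) A₀ (by
      intro s hs
      rw [hbl, ← hl s hs]
      exact Finset.sum_congr rfl fun i _ => mul_comm _ _)
  -- the estimate
  have hmain := sw 𝓤 SK B hB0 (A₀.card - w) hN gK hgKinf hnd (ε / 4) (by linarith)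
  have hcast : ((A₀.card - w : ℕ) : ℝ) = A₀.card - w := by rw [Nat.cast_sub hwz]
  rw [hcast] at hmain
  obtain ⟨κ, hκ⟩ : ∃ κ : ℝ, κ = SK.card * q := ⟨_, rfl⟩
  have hκ0 : 0 ≤ κ := by
    rw [hκ]
    exact mul_nonneg (Nat.cast_nonneg _) (Nat.cast_nonneg _)
  obtain ⟨η, hη⟩ : ∃ η : ℝ, η = ε / 4 / (κ + 1) := ⟨_, rfl⟩
  have hη0 : 0 < η := by
    rw [hη]
    positivity
  have hcmp : ∀ᶠ i in 𝓤, ∀ u ∈ SK, wt u * Real.log (nrm (av u) (fK i)) ≤
      wt u * Real.log (nrm (av u) (gK i)) + η * logHeight (gK i) := by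
    rw [Filter.eventually_all_finset]
    intro u _
    have h1 := nrm_comb hgKinf u (fun j i => fK i j) (fun l i => gK i l)
      (fun j l => fun _ => algebraMap k K (a l j)) (fun j l => slow_const hgKinf _)
      (fun j => by
        filter_upwards [hfg] with i hi
        exact hi j) (by
        by_contra hcon2
        push Not at hcon2
        have h3 : ∀ᶠ i in 𝓤, ∀ j, fK i j = 0 := by
          rw [Filter.eventually_all]
          exact hcon2
        obtain ⟨i, hi⟩ := h3.exists
        apply hf0 i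
        funext j
        exact (map_eq_zero _).1 (hi j)) η hη0
    exact h1
  have hbig := hinf.eventually_gt_atTop ((2 * r - t + ε / 2) * C1 + C1)
  obtain ⟨i, h1, h2, h3, h4⟩ := (hmain.and (hcmp.and (hEg.and hbig))).exists
  have hG0 : 0 ≤ logHeight (gK i) := logHeight_nonneg _
  have h5 : ∑ u ∈ SK, ∑ s, wt u * (Real.log (nrm (av u) (fK i)) -
      Real.log (av u (bev r (fK i) (H s 1) (H s 0)))) ≤
      ∑ u ∈ SK, ∑ s, wt u * (Real.log (nrm (av u) (gK i)) -
      Real.log (av u (∑ l, B s l * gK i l))) + ε / 4 * logHeight (gK i) := by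
    have e1 : ∀ u ∈ SK, ∑ s, wt u * (Real.log (nrm (av u) (fK i)) -
        Real.log (av u (bev r (fK i) (H s 1) (H s 0)))) ≤
        ∑ s, wt u * (Real.log (nrm (av u) (gK i)) -
        Real.log (av u (∑ l, B s l * gK i l))) + q * (η * logHeight (gK i)) := by
      intro u hu
      have e2 : ∀ s ∈ (Finset.univ : Finset (Fin q)), wt u * (Real.log (nrm (av u) (fK i)) -
          Real.log (av u (bev r (fK i) (H s 1) (H s 0)))) ≤
          wt u * (Real.log (nrm (av u) (gK i)) -
          Real.log (av u (∑ l, B s l * gK i l))) + η * logHeight (gK i) := by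
        intro s _
        rw [h3 s, mul_sub, mul_sub]
        have := h2 u hu
        linarith
      refine (Finset.sum_le_sum e2).trans (le_of_eq ?_)
      rw [Finset.sum_add_distrib, Finset.sum_const, Finset.card_univ, Fintype.card_fin,
        nsmul_eq_mul]
    refine (Finset.sum_le_sum e1).trans ?_
    rw [Finset.sum_add_distrib, Finset.sum_const, nsmul_eq_mul]
    have e3 : (SK.card : ℝ) * (q * (η * logHeight (gK i))) =
        (κ / (κ + 1)) * (ε / 4 * logHeight (gK i)) := by
      rw [← mul_assoc, ← hκ, hη]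
      field_simp
    have e4 : κ / (κ + 1) ≤ 1 := by
      rw [div_le_one (by linarith)]
      linarith
    rw [e3]
    have e5 : (κ / (κ + 1)) * (ε / 4 * logHeight (gK i)) ≤
        1 * (ε / 4 * logHeight (gK i)) :=
      mul_le_mul_of_nonneg_right e4 (mul_nonneg (by linarith) hG0)
    linarith
  have h6 : (2 * ((A₀.card : ℝ) - w) + w + 1 + ε / 4) ≤ 2 * r - t + ε / 4 := by linarith
  have h7 : logHeight (gK i) ≤ logHeight (fK i) := logHeight_comp_le idx (fK i)
  have h8 : logHeight (fK i) = finrank k K * logHeight (f i) :=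
    Pool.Agent.Helper259.HtExt.logHeight_ext (f i)
  have h9 : logHeight (gK i) ≤ finrank k K * (h i + C1) := by
    rw [h8] at h7
    exact h7.trans (mul_le_mul_of_nonneg_left (hfh i) (by linarith))
  have h10 := hP2 i
  have h11 : ∑ u ∈ SK, ∑ s, wt u * (Real.log (nrm (av u) (fun j => algebraMap k K (f i j))) -
      Real.log (av u (bev r (fun j => algebraMap k K (f i j)) (H s 1) (H s 0)))) =
      ∑ u ∈ SK, ∑ s, wt u * (Real.log (nrm (av u) (fK i)) -
      Real.log (av u (bev r (fK i) (H s 1) (H s 0)))) := rfl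
  rw [h11] at h10
  have h12 := mul_le_mul_of_nonneg_right h6 hG0
  have h13 : (2 * r - t + ε / 2) * logHeight (gK i) ≤
      (2 * r - t + ε / 2) * (finrank k K * (h i + C1)) :=
    mul_le_mul_of_nonneg_left h9 (by linarith)
  have h14 : (finrank k K : ℝ) * P i ≤ (2 * r - t + ε / 2) * (finrank k K * (h i + C1)) + C1 := by
    have e1 : (2 * r - t + ε / 4) * logHeight (gK i) + ε / 4 * logHeight (gK i) =
      (2 * r - t + ε / 2) * logHeight (gK i) := by ring
    linarith
  have h15 := mul_lt_mul_of_pos_left (hP1 i) (show (0 : ℝ) < finrank k K by linarith)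
  have h16 : (finrank k K : ℝ) * (i.2 : ℝ) <
      finrank k K * ((2 * r - t + ε / 2) * C1 + C1) := by
    have e1 : 0 ≤ (finrank k K : ℝ) * (ε / 2 * h i) :=
      mul_nonneg (by linarith) (mul_nonneg (by linarith) (hh0 i))
    have e2 : 1 * C1 ≤ finrank k K * C1 := mul_le_mul_of_nonneg_right hK1 hC1
    have e3 : (finrank k K : ℝ) * ((2 * r - t + ε) * h i + i.2) =
        (2 * r - t + ε / 2) * (finrank k K * h i) + finrank k K * (ε / 2 * h i) +
          finrank k K * (i.2 : ℝ) := by ring
    have e4 : (2 * r - t + ε / 2) * (finrank k K * (h i + C1)) =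
        (2 * r - t + ε / 2) * (finrank k K * h i) +
          finrank k K * ((2 * r - t + ε / 2) * C1) := by ring
    have e5 : (finrank k K : ℝ) * ((2 * r - t + ε / 2) * C1 + C1) =
        finrank k K * ((2 * r - t + ε / 2) * C1) + finrank k K * C1 := by ring
    rw [e3] at h15
    rw [e4] at h14
    rw [e5]
    linarith
  have h17 := lt_of_mul_lt_mul_left h16 (by linarith)
  linarith

end Pool.Agent.U937.Lin
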