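import Mathlib
import Pool.Agent.N750.ResX
import Pool.Agent.U937.LinC

/-!
Points of degree `r` on the line and linear systems of binary forms: the final form.
-/

set_option autoImplicit false
set_option linter.unusedSectionVars false

open Finset Filter Topology

namespace Pool.Agent.U937.Lin

open NumberField IsDedekindDomain Height Module
open Pool.Agent.W180.OP (Pl av wt nrm le_nrm nrm_pos wt_nonneg exists_nrm nrm_nonneg)
open Pool.Agent.N750 (rk rk_empty rk_mono rk_indep bev IsNF exists_isNF isNF_ne full_closed map_bev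
  ab ab_unique triv_bound sum_places log_diff vand_indep rk_ge)

section alg

variable {k K : Type} [Field k] [Field K] [Algebra k K]

/-- the members over `K` -/
def mem (K : Type) [Field K] [Algebra k K] {r : ℕ} (Λ : Submodule k (Fin (r + 1) → k)) :
    Submodule K (Fin (r + 1) → K) :=
  Submodule.span K ((fun (c : Fin (r + 1) → k) (j : Fin (r + 1)) => algebraMap k K (c j)) ''
    (Λ : Set (Fin (r + 1) → k)))

/-- the special linear systems -/
def Sq {q r : ℕ} (H : Fin q → Fin 2 → K) (t : ℝ) (Λ : Submodule k (Fin (r + 1) → k)) : Prop :=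
  2 ≤ finrank k Λ ∧ ∃ G ∈ mem K Λ, G ≠ 0 ∧ ∃ A : Finset (Fin q),
    (∀ s ∈ A, bev r G (H s 1) (-H s 0) = 0) ∧ (finrank k Λ : ℝ) + 2 * (r - A.card) < t + 2

/-- the change of sign -/
def tw (k : Type) [Field k] (r : ℕ) : (Fin (r + 1) → k) →ₗ[k] (Fin (r + 1) → k) where
  toFun c j := (-1) ^ (j : ℕ) * c j
  map_add' x y := by
    funext j
    show (-1) ^ (j : ℕ) * (x j + y j) = (-1) ^ (j : ℕ) * x j + (-1) ^ (j : ℕ) * y j
    ring
  map_smul' a x := by
    funext j
    show (-1) ^ (j : ℕ) * (a * x j) = a * ((-1) ^ (j : ℕ) * x j)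
    ring

theorem tw_tw (r : ℕ) (c : Fin (r + 1) → k) : tw k r (tw k r c) = c := by
  funext j
  show (-1) ^ (j : ℕ) * ((-1) ^ (j : ℕ) * c j) = c j
  rw [← mul_assoc, ← mul_pow]
  norm_num

theorem tw_inj (r : ℕ) : Function.Injective (tw k r) := fun x y h => by
  rw [← tw_tw r x, h, tw_tw]

theorem bev_tw (r : ℕ) (f : Fin (r + 1) → K) (v w : K) :
    bev r (tw K r f) v (-w) = (-1) ^ r * bev r f v w := by
  unfold bev
  rw [Finset.mul_sum]
  refine Finset.sum_congr rfl fun j _ => ?_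
  show (-1) ^ (j : ℕ) * f j * (v ^ (j : ℕ) * (-w) ^ (r - (j : ℕ))) = _
  have h1 : ((-1 : K)) ^ r = (-1) ^ (j : ℕ) * (-1) ^ (r - (j : ℕ)) := by
    rw [← pow_add]
    congr 1
    have := j.2
    omega
  rw [h1, neg_pow w]
  ring

/-- the general bound for the number of zeros -/
theorem zeros_le {q r : ℕ} (H : Fin q → Fin 2 → K)
    (hD : ∀ i j, i ≠ j → H i 0 * H j 1 ≠ H i 1 * H j 0) (hne : ∀ i, H i ≠ 0) {V : Type}
    [AddCommGroup V] [Module K V] [Module.Finite K V] (Φ : (Fin (r + 1) → K) →ₗ[K] V)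
    (hΦ : Function.Surjective Φ) (A : Finset (Fin q)) (hA : A.card ≤ r + 1)
    (h0 : ∀ s ∈ A, Φ (fun j => H s 1 ^ (j : ℕ) * (-H s 0) ^ (r - (j : ℕ))) = 0) :
    A.card + finrank K V ≤ r + 1 := by
  classical
  have h1 := vand_indep (fun s : Fin q => H s 1) (fun s => -H s 0) r A hA (by
    intro s _
    by_contra hcon
    push Not at hcon
    apply hne s
    funext j
    fin_cases j
    · exact neg_eq_zero.1 hcon.2
    · exact hcon.1) (by
    intro s _ s' _ hss h
    apply hD s s' hss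
    linear_combination h)
  have h2 := rk_ge Φ hΦ _ A h1
  rw [Module.finrank_fin_fun] at h2
  have h3 : rk K (fun c => Φ (fun j : Fin (r + 1) => H c 1 ^ (j : ℕ) *
      (-H c 0) ^ (r - (j : ℕ)))) A = 0 := by
    unfold rk
    have : Submodule.span K ((fun c => Φ (fun j : Fin (r + 1) => H c 1 ^ (j : ℕ) *
      (-H c 0) ^ (r - (j : ℕ)))) '' (A : Set (Fin q))) = ⊥ := by
      rw [Submodule.span_eq_bot]
      rintro _ ⟨s, hs, rfl⟩
      exact h0 s hs
    rw [this, finrank_bot]
  rw [h3] at h2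
  omega

/-- a non-zero form of degree `r` has at most `r` zeros -/
theorem card_le {q r : ℕ} (H : Fin q → Fin 2 → K)
    (hD : ∀ i j, i ≠ j → H i 0 * H j 1 ≠ H i 1 * H j 0) (hne : ∀ i, H i ≠ 0)
    (G : Fin (r + 1) → K) (hG : G ≠ 0) (A : Finset (Fin q))
    (hA : ∀ s ∈ A, bev r G (H s 1) (-H s 0) = 0) : A.card ≤ r := by
  by_contra hlt
  push Not at hlt
  obtain ⟨A', hA', hc⟩ := Finset.exists_subset_card_eq (s := A) (n := r + 1) hlt
  let Φ : (Fin (r + 1) → K) →ₗ[K] K := ∑ j, G j • LinearMap.proj j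
  have hΦv : ∀ v, Φ v = ∑ j, G j * v j := by
    intro v
    show (∑ j, G j • (LinearMap.proj j : (Fin (r + 1) → K) →ₗ[K] K)) v = _
    rw [LinearMap.sum_apply]
    rfl
  have hΦ : Function.Surjective Φ := by
    apply LinearMap.surjective
    intro h
    apply hG
    funext i
    have h1 := congrArg (fun Ψ : (Fin (r + 1) → K) →ₗ[K] K => Ψ (Pi.single i 1)) h
    simp only [LinearMap.zero_apply] at h1
    rw [hΦv, Finset.sum_eq_single i] at h1
    · rw [Pi.single_eq_same, mul_one] at h1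
      exact h1
    · intro j _ hj
      rw [Pi.single_eq_of_ne hj, mul_zero]
    · intro h
      exact absurd (Finset.mem_univ _) h
  have h1 := zeros_le H hD hne Φ hΦ A' hc.le (fun s hs => by
    rw [hΦv]
    exact hA s (hA' hs))
  rw [hc, Module.finrank_self] at h1
  omega

/-- uniqueness of the form through `r` points -/
theorem uniq {q r : ℕ} (H : Fin q → Fin 2 → K)
    (hD : ∀ i j, i ≠ j → H i 0 * H j 1 ≠ H i 1 * H j 0) (hne : ∀ i, H i ≠ 0)
    (A : Finset (Fin q)) (hA : A.card = r) (G G' : Fin (r + 1) → K) (hG0 : G ≠ 0)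
    (hG : ∀ s ∈ A, bev r G (H s 1) (-H s 0) = 0)
    (hG' : ∀ s ∈ A, bev r G' (H s 1) (-H s 0) = 0) : ∃ κ : K, G' = κ • G := by
  classical
  let Φ : (Fin (r + 1) → K) →ₗ[K] (Fin 2 → K) :=
    { toFun := fun v i => ∑ j, (![G, G'] : Fin 2 → Fin (r + 1) → K) i j * v j
      map_add' := by
        intro x y
        funext i
        show ∑ j, (![G, G'] : Fin 2 → Fin (r + 1) → K) i j * (x j + y j) =
          ∑ j, (![G, G'] : Fin 2 → Fin (r + 1) → K) i j * x j +
          ∑ j, (![G, G'] : Fin 2 → Fin (r + 1) → K) i j * y j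
        rw [← Finset.sum_add_distrib]
        exact Finset.sum_congr rfl fun j _ => by ring
      map_smul' := by
        intro c x
        funext i
        show ∑ j, (![G, G'] : Fin 2 → Fin (r + 1) → K) i j * (c * x j) =
          c * ∑ j, (![G, G'] : Fin 2 → Fin (r + 1) → K) i j * x j
        rw [Finset.mul_sum]
        exact Finset.sum_congr rfl fun j _ => by ring }
  by_cases hΦ : Function.Surjective Φ
  · exfalso
    have h1 := zeros_le H hD hne Φ hΦ A (by omega) (fun s hs => by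
      funext i
      fin_cases i
      · exact hG s hs
      · exact hG' s hs)
    rw [hA, Module.finrank_fin_fun] at h1
    omega
  · rw [← LinearMap.range_eq_top] at hΦ
    obtain ⟨φ, hφ, hker⟩ := Submodule.exists_le_ker_of_lt_top _ (lt_top_iff_ne_top.2 hΦ)
    have h1 : ∀ v : Fin 2 → K, φ v = φ (Pi.single 0 1) * v 0 + φ (Pi.single 1 1) * v 1 := by
      intro v
      have h2 : v = v 0 • (Pi.single 0 1 : Fin 2 → K) + v 1 • (Pi.single 1 1 : Fin 2 → K) := by
        funext i
        fin_cases i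
        · simp
        · simp
      conv_lhs => rw [h2]
      rw [map_add, map_smul, map_smul, smul_eq_mul, smul_eq_mul]
      ring
    have h2 : ∀ j, φ (Pi.single 0 1) * G j + φ (Pi.single 1 1) * G' j = 0 := by
      intro j
      have h3 : φ (Φ (Pi.single j 1)) = 0 := hker ⟨_, rfl⟩
      rw [h1] at h3
      have h4 : ∀ i, Φ (Pi.single j 1) i = (![G, G'] : Fin 2 → Fin (r + 1) → K) i j := by
        intro i
        show ∑ l, (![G, G'] : Fin 2 → Fin (r + 1) → K) i l * (Pi.single j 1 : Fin (r + 1) → K) l = _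
        rw [Finset.sum_eq_single j]
        · rw [Pi.single_eq_same, mul_one]
        · intro l _ hl
          rw [Pi.single_eq_of_ne hl, mul_zero]
        · intro h
          exact absurd (Finset.mem_univ _) h
      rw [h4, h4] at h3
      exact h3
    have h5 : φ (Pi.single 1 1) ≠ 0 := by
      intro h5
      rw [h5] at h2
      have h6 : φ (Pi.single 0 1) ≠ 0 := by
        intro h6
        apply hφ
        refine LinearMap.ext fun v => ?_
        rw [h1, h5, h6]
        simp
      apply hG0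
      funext j
      have := h2 j
      rw [zero_mul, add_zero] at this
      exact (mul_eq_zero.1 this).resolve_left h6
    refine ⟨-(φ (Pi.single 0 1) / φ (Pi.single 1 1)), ?_⟩
    funext j
    rw [Pi.smul_apply, smul_eq_mul]
    have := h2 j
    field_simp
    linear_combination this

/-- the smallest subspace over `k` whose span over `K` contains `G` -/
def W (k : Type) {K : Type} [Field k] [Field K] [Algebra k K] {r : ℕ} (G : Fin (r + 1) → K) :
    Submodule k (Fin (r + 1) → k) :=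
  Submodule.span k (Set.range fun (φ : K →ₗ[k] k) => fun j => φ (G j))

theorem W_le {r : ℕ} (G : Fin (r + 1) → K) (Λ : Submodule k (Fin (r + 1) → k))
    (hG : G ∈ mem K Λ) : W k G ≤ Λ := by
  unfold W
  rw [Submodule.span_le]
  rintro _ ⟨φ, rfl⟩
  unfold mem at hG
  refine Submodule.span_induction (p := fun G _ => ∀ φ : K →ₗ[k] k, (fun j => φ (G j)) ∈ Λ)
    ?_ ?_ ?_ ?_ hG φ
  · rintro _ ⟨c, hc, rfl⟩ ψ
    have h1 : (fun j => ψ (algebraMap k K (c j))) = ψ 1 • c := by
      funext j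
      rw [Pi.smul_apply, smul_eq_mul, Algebra.algebraMap_eq_smul_one, map_smul, smul_eq_mul,
        mul_comm]
    rw [h1]
    exact Λ.smul_mem _ hc
  · intro ψ
    have h1 : (fun j : Fin (r + 1) => ψ ((0 : Fin (r + 1) → K) j)) = 0 := by
      funext j
      exact map_zero ψ
    rw [h1]
    exact Λ.zero_mem
  · intro x y _ _ hx hy ψ
    have h1 : (fun j => ψ ((x + y) j)) = (fun j => ψ (x j)) + (fun j => ψ (y j)) := by
      funext j
      exact map_add ψ _ _
    rw [h1]
    exact Λ.add_mem (hx ψ) (hy ψ)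
  · intro a x _ hx ψ
    exact hx (ψ ∘ₗ LinearMap.mulLeft k a)

/-- if the space is at most one-dimensional, the form is proportional to a form over `k` -/
theorem W_one {r : ℕ} (G : Fin (r + 1) → K) (hG : G ≠ 0) (h : finrank k (W k G) ≤ 1) :
    ∃ (c : Fin (r + 1) → k) (κ : K), c ≠ 0 ∧ κ ≠ 0 ∧ ∀ j, G j = κ * algebraMap k K (c j) := by
  classical
  obtain ⟨j₀, hj₀⟩ : ∃ j, G j ≠ 0 := by
    by_contra hcon
    push Not at hcon
    exact hG (funext hcon)
  -- a functional with value one at `G j₀`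
  obtain ⟨φ, hφ⟩ : ∃ φ : K →ₗ[k] k, φ (G j₀) ≠ 0 := by
    by_contra hcon
    push Not at hcon
    exact hj₀ ((Module.forall_dual_apply_eq_zero_iff k (G j₀)).1 hcon)
  set c : Fin (r + 1) → k := fun j => φ (G j) with hc
  have hcW : c ∈ W k G := Submodule.subset_span ⟨φ, rfl⟩
  have hc0 : c ≠ 0 := fun h => hφ (congrFun h j₀)
  have hall : ∀ ψ : K →ₗ[k] k, ∀ j, ψ (G j) * c j₀ = ψ (G j₀) * c j := by
    intro ψ j
    have h1 : (fun j => ψ (G j)) ∈ W k G := Submodule.subset_span ⟨ψ, rfl⟩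
    have hcne : (⟨c, hcW⟩ : W k G) ≠ 0 := fun h => hc0 (congrArg Subtype.val h)
    have h1' : finrank k (W k G) = 1 := by
      have : 0 < finrank k (W k G) := by
        have : Nontrivial (W k G) := ⟨⟨c, hcW⟩, 0, hcne⟩
        exact finrank_pos
      omega
    obtain ⟨a, ha⟩ := (finrank_eq_one_iff_of_nonzero' (⟨c, hcW⟩ : W k G) hcne).1 h1' ⟨_, h1⟩
    have h2 : ∀ j, ψ (G j) = a * c j := by
      intro j
      have := congrArg (fun x : W k G => (x : Fin (r + 1) → k) j) ha
      exact this.symm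
    rw [h2, h2]
    ring
  refine ⟨c, G j₀ * (algebraMap k K (c j₀))⁻¹, hc0, ?_, ?_⟩
  · refine mul_ne_zero hj₀ (inv_ne_zero ?_)
    rw [Ne, map_eq_zero]
    exact hφ
  · intro j
    have hcj : algebraMap k K (c j₀) ≠ 0 := by
      rw [Ne, map_eq_zero]
      exact hφ
    have h1 : c j₀ • G j = c j • G j₀ := by
      rw [← sub_eq_zero]
      refine (Module.forall_dual_apply_eq_zero_iff k _).1 fun ψ => ?_
      have h2 := hall ψ j
      have h3 : ψ (c j₀ • G j - c j • G j₀) = c j₀ * ψ (G j) - c j * ψ (G j₀) := by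
        rw [map_sub, map_smul, map_smul]
        rfl
      rw [h3]
      linear_combination h2
    rw [Algebra.smul_def, Algebra.smul_def] at h1
    field_simp
    linear_combination h1

/-- the special pencils for `t = 1` -/
theorem special_one {q r : ℕ} (H : Fin q → Fin 2 → K)
    (hD : ∀ i j, i ≠ j → H i 0 * H j 1 ≠ H i 1 * H j 0) (hne : ∀ i, H i ≠ 0)
    (hnr : ∀ A : Finset (Fin q), A.card = r → ∀ c : Fin (r + 1) → k, c ≠ 0 →
      ∃ s ∈ A, bev r (fun j => algebraMap k K (c j)) (H s 1) (-H s 0) ≠ 0) :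
    ∃ PP : Finset (Submodule k (Fin (r + 1) → k)), PP.card ≤ q.choose r ∧
      (∀ Λ ∈ PP, finrank k Λ = 2 ∧ ∃ G ∈ mem K Λ, G ≠ 0 ∧ ∃ A : Finset (Fin q), A.card = r ∧
        ∀ s ∈ A, bev r G (H s 1) (-H s 0) = 0) ∧
      ∀ Λ : Submodule k (Fin (r + 1) → k), Sq H 1 Λ → Λ ∈ PP := by
  classical
  let g : Finset (Fin q) → Fin (r + 1) → K := fun A =>
    if h : ∃ G : Fin (r + 1) → K, G ≠ 0 ∧ ∀ s ∈ A, bev r G (H s 1) (-H s 0) = 0 then h.choose else 0
  set Q : Finset (Submodule k (Fin (r + 1) → k)) :=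
    (((Finset.univ : Finset (Fin q)).powersetCard r).image fun A => W k (g A)) with hQ
  have hkey : ∀ Λ : Submodule k (Fin (r + 1) → k), Sq H 1 Λ → Λ ∈ Q ∧ finrank k Λ = 2 ∧
      ∃ G ∈ mem K Λ, G ≠ 0 ∧ ∃ A : Finset (Fin q), A.card = r ∧
        ∀ s ∈ A, bev r G (H s 1) (-H s 0) = 0 := by
    rintro Λ ⟨h2, G, hG, hG0, A, hA, hlt⟩
    have h1 := card_le H hD hne G hG0 A hA
    have h3 : A.card = r ∧ finrank k Λ = 2 := by
      have e1 : ((finrank k Λ + 2 * (r - A.card) : ℕ) : ℝ) < (3 : ℕ) := by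
        push_cast
        rw [Nat.cast_sub h1]
        linarith
      have e2 : finrank k Λ + 2 * (r - A.card) < 3 := by exact_mod_cast e1
      omega
    refine ⟨?_, h3.2, G, hG, hG0, A, h3.1, hA⟩
    have hex : ∃ G : Fin (r + 1) → K, G ≠ 0 ∧ ∀ s ∈ A, bev r G (H s 1) (-H s 0) = 0 :=
      ⟨G, hG0, hA⟩
    have hgA : g A = hex.choose := by
      show (if h : ∃ G : Fin (r + 1) → K, G ≠ 0 ∧ ∀ s ∈ A, bev r G (H s 1) (-H s 0) = 0
        then h.choose else 0) = _
      rw [dif_pos hex]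
    have hg1 := hex.choose_spec
    rw [← hgA] at hg1
    obtain ⟨κ, hκ⟩ := uniq H hD hne A h3.1 G (g A) hG0 hA hg1.2
    have hgm : g A ∈ mem K Λ := by
      rw [hκ]
      exact Submodule.smul_mem _ _ hG
    have h4 := W_le (g A) Λ hgm
    have h5 : 2 ≤ finrank k (W k (g A)) := by
      by_contra hcon
      obtain ⟨c, κ', hc, hκ', hcG⟩ := W_one (g A) hg1.1 (by omega : finrank k (W k (g A)) ≤ 1)
      obtain ⟨s, hs, hs0⟩ := hnr A h3.1 c hc
      apply hs0
      have h6 := hg1.2 s hs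
      have h7 : bev r (g A) (H s 1) (-H s 0) =
          κ' * bev r (fun j => algebraMap k K (c j)) (H s 1) (-H s 0) := by
        unfold bev
        rw [Finset.mul_sum]
        refine Finset.sum_congr rfl fun j _ => ?_
        rw [hcG]
        ring
      rw [h7] at h6
      exact (mul_eq_zero.1 h6).resolve_left hκ'
    have h6 : W k (g A) = Λ := Submodule.eq_of_le_of_finrank_le h4 (by omega)
    rw [hQ, Finset.mem_image]
    exact ⟨A, Finset.mem_powersetCard.2 ⟨Finset.subset_univ _, h3.1⟩, h6⟩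
  refine ⟨Q.filter fun Λ => Sq H 1 Λ, ?_, ?_, ?_⟩
  · refine (Finset.card_filter_le _ _).trans ?_
    rw [hQ]
    refine Finset.card_image_le.trans ?_
    rw [Finset.card_powersetCard, Finset.card_univ, Fintype.card_fin]
  · intro Λ hΛ
    exact (hkey Λ (Finset.mem_filter.1 hΛ).2).2
  · intro Λ hΛ
    exact Finset.mem_filter.2 ⟨(hkey Λ hΛ).1, hΛ⟩

end alg

end Pool.Agent.U937.Lin
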