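import Mathlib
import Pool.Agent.U937.LinD

/-!
Points of degree `r` on the line and linear systems of binary forms: assembly.
-/

set_option autoImplicit false
set_option linter.unusedSectionVars false

open Finset Filter Topology

namespace Pool.Agent.U937.Lin

open NumberField IsDedekindDomain Height Module
open Pool.Agent.W180.OP (Pl av wt nrm le_nrm nrm_pos wt_nonneg exists_nrm nrm_nonneg)
open Pool.Agent.N750 (rk rk_empty rk_mono rk_indep bev IsNF exists_isNF isNF_ne full_closed map_bev
  ab ab_unique triv_bound sum_places log_diff vand_indep rk_ge)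

variable {k K : Type} [Field k] [NumberField k] [Field K] [NumberField K] [Algebra k K]

/-- the norm form with the signs changed vanishes at the point -/
theorem nf_zero {r : ℕ} {L : Type} [Field L] [NumberField L] [Algebra k L] (x : Fin 2 → L)
    (hx : x 0 ≠ 0) (f : Fin (r + 1) → k) (hf : IsNF r (x 1 / x 0) f) :
    bev r (fun j => algebraMap k L (tw k r f j)) (x 0) (x 1) = 0 := by
  classical
  let Ω := AlgebraicClosure L
  set y := x 1 / x 0 with hy
  have h1 := hf Ω (full_closed k L Ω) (algebraMap L Ω y) (-1)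
  have h2 : ∏ σ : L →ₐ[k] Ω, (algebraMap L Ω y + -1 * σ y) = 0 := by
    refine Finset.prod_eq_zero (Finset.mem_univ (IsScalarTower.toAlgHom k L Ω)) ?_
    show algebraMap L Ω y + -1 * algebraMap L Ω y = 0
    ring
  rw [h2] at h1
  have h3 : bev r (fun j => algebraMap k L (f j)) (-1) y = 0 := by
    apply (algebraMap L Ω).injective
    rw [map_bev, map_zero, h1]
    congr 1
    · rw [map_neg, map_one]
  have h4 : bev r (fun j => algebraMap k L (tw k r f j)) (x 0) (x 1) =
      x 0 ^ r * bev r (fun j => algebraMap k L (f j)) (-1) y := by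
    unfold bev
    rw [Finset.mul_sum]
    refine Finset.sum_congr rfl fun j _ => ?_
    show algebraMap k L ((-1) ^ (j : ℕ) * f j) * _ = _
    have h5 : x 1 = x 0 * y := by
      rw [hy]
      field_simp
    have h6 : x 0 ^ r = x 0 ^ (j : ℕ) * x 0 ^ (r - (j : ℕ)) := by
      rw [← pow_add]
      congr 1
      have := j.2
      omega
    rw [h5, mul_pow, h6, map_mul, map_pow, map_neg, map_one]
    ring
  rw [h4, h3, mul_zero]

theorem hom_of {q : ℕ} (F : MvPolynomial (Fin 2) k) (H : Fin q → Fin 2 → K)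
    (hF : F.map (algebraMap k K) = ∏ i, ∑ j, MvPolynomial.C (H i j) * MvPolynomial.X j) :
    F.IsHomogeneous q := by
  refine MvPolynomial.IsHomogeneous.of_map (f := algebraMap k K) (algebraMap k K).injective ?_
  rw [hF]
  have h1 := MvPolynomial.IsHomogeneous.prod (Finset.univ : Finset (Fin q))
    (fun i => ∑ j, MvPolynomial.C (H i j) * MvPolynomial.X j) (fun _ => 1) (fun i _ => by
      refine MvPolynomial.IsHomogeneous.sum _ _ _ fun j _ => ?_
      exact MvPolynomial.isHomogeneous_C_mul_X _ _)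
  simpa using h1

/-- a special subspace gives a special linear system -/
theorem sq_of_sp {q r : ℕ} (H : Fin q → Fin 2 → K) {t t' : ℝ} (htt : t ≤ t')
    (Λ : Submodule k (Fin (r + 1) → k)) (h : Sp H t Λ) : Sq H t' (Λ.map (tw k r)) := by
  obtain ⟨h2, G, hG, hG0, A, hA, hlt⟩ := h
  have hfr : finrank k (Λ.map (tw k r)) = finrank k Λ :=
    (LinearEquiv.finrank_eq (Submodule.equivMapOfInjective (tw k r) (tw_inj r) Λ)).symm
  refine ⟨by rw [hfr]; exact h2, tw K r G, ?_, ?_, A, ?_, ?_⟩
  · unfold mem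
    have h3 := Submodule.apply_mem_span_image_of_mem_span (tw K r) hG
    refine Submodule.span_mono ?_ h3
    rintro _ ⟨_, ⟨c, hc, rfl⟩, rfl⟩
    refine ⟨tw k r c, ⟨c, hc, rfl⟩, ?_⟩
    funext j
    show algebraMap k K ((-1) ^ (j : ℕ) * c j) = (-1) ^ (j : ℕ) * algebraMap k K (c j)
    rw [map_mul, map_pow, map_neg, map_one]
  · intro h
    apply hG0
    apply tw_inj r
    rw [h, map_zero]
  · intro s hs
    rw [bev_tw, hA s hs, mul_zero]
  · rw [hfr]
    linarith

/-- the height of the point at infinity -/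
theorem ht_inf {L : Type} [Field L] [NumberField L] (x : Fin 2 → L) (hx : x ≠ 0) (h0 : x 0 = 0) :
    logHeight x = 0 := by
  have h1 : x 1 ≠ 0 := by
    intro h1
    apply hx
    funext i
    fin_cases i
    · exact h0
    · exact h1
  have h2 : x = x 1 • (![0, 1] : Fin 2 → L) := by
    funext i
    fin_cases i
    · show x 0 = x 1 * 0
      rw [h0, mul_zero]
    · show x 1 = x 1 * 1
      rw [mul_one]
  rw [h2, logHeight_smul_eq_logHeight _ h1, ← logHeight₁_eq_logHeight, logHeight₁_zero]

open Classical in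
/-- **points of degree `r` and linear systems** -/
theorem main1 {q r : ℕ} (hrq : r ≤ q) (F : MvPolynomial (Fin 2) k) (H : Fin q → Fin 2 → K)
    (hF : F.map (algebraMap k K) = ∏ i, ∑ j, MvPolynomial.C (H i j) * MvPolynomial.X j)
    (hD : ∀ i j, i ≠ j → H i 0 * H j 1 ≠ H i 1 * H j 0)
    (S : Finset (HeightOneSpectrum (𝓞 k))) (t : ℝ) (ε : ℝ) (hε : 0 < ε) :
    ∃ (𝓛 : Finset (Submodule k (Fin (r + 1) → k))) (C : ℝ), 0 ≤ C ∧ (∀ Λ ∈ 𝓛, Sq H t Λ) ∧
      ∀ (L : Type) [Field L] [NumberField L] [Algebra k L], finrank k L = r →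
      ∀ (x : Fin 2 → L), x ≠ 0 → MvPolynomial.aeval x F ≠ 0 →
      (2 * r - 2 - t) * logHeight x ≤
        Real.log |(discr L : ℝ)| - finrank k L * Real.log |(discr k : ℝ)| →
      (∃ Λ ∈ 𝓛, ∃ c ∈ Λ, c ≠ 0 ∧ bev r (fun j => algebraMap k L (c j)) (x 0) (x 1) = 0) ∨
      ∑ w : InfinitePlace L, (w.mult : ℝ) * (q * Real.log (nrm w.1 x) -
          Real.log (w (MvPolynomial.aeval x F))) +
        ∑ᶠ w ∈ {w : HeightOneSpectrum (𝓞 L) | ∃ v ∈ S, w.asIdeal.LiesOver v.asIdeal},
          (q * Real.log (nrm (FinitePlace.mk w).1 x) -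
            Real.log (FinitePlace.mk w (MvPolynomial.aeval x F))) ≤
        (2 + ε) * logHeight x +
          (Real.log |(discr L : ℝ)| - finrank k L * Real.log |(discr k : ℝ)|) + C := by
  classical
  have hFq := hom_of F H hF
  set S' := (Finset.univ : Finset (InfinitePlace k)).disjSum S with hS'
  obtain ⟨𝓛, C, hL, hmain⟩ := core hrq F H hF hFq hD S' (min t (2 * r)) (min_le_right _ _) ε hε
  obtain ⟨C3, hC3, htriv⟩ := triv_bound F hFq
  refine ⟨𝓛.image fun Λ => Λ.map (tw k r), |C| + r * C3, by positivity, ?_, ?_⟩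
  · intro Λ hΛ
    obtain ⟨Λ', hΛ', rfl⟩ := Finset.mem_image.1 hΛ
    exact sq_of_sp H (min_le_left _ _) Λ' (hL Λ' hΛ')
  intro L _ _ _ hd x hx0 hFx hdisc
  have hdisc0 : 0 ≤ Real.log |(discr L : ℝ)| - finrank k L * Real.log |(discr k : ℝ)| := by
    rw [← log_diff]
    exact Real.log_natCast_nonneg _
  have hh0 : 0 ≤ logHeight x := logHeight_nonneg _
  have hsum := sum_places S (L := L) (fun w => wt w * (q * Real.log (nrm (av w) x) -
        Real.log (av w (MvPolynomial.aeval x F))))
  have hfin : ∀ w : HeightOneSpectrum (𝓞 L), wt (Sum.inr w : Pl L) *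
      (q * Real.log (nrm (av (Sum.inr w)) x) - Real.log (av (Sum.inr w) (MvPolynomial.aeval x F))) =
      q * Real.log (nrm (FinitePlace.mk w).1 x) -
            Real.log (FinitePlace.mk w (MvPolynomial.aeval x F)) := by
    intro w
    have : wt (Sum.inr w : Pl L) = 1 := rfl
    rw [this, one_mul]
    rfl
  simp only [hfin] at hsum
  have hC' : C ≤ |C| := le_abs_self C
  have hrC : 0 ≤ (r : ℝ) * C3 := mul_nonneg (Nat.cast_nonneg _) hC3
  by_cases hx1 : x 0 = 0
  · right
    have h1 := htriv L x hx0 hFx (S'.biUnion (ab L))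
    rw [Finset.sum_biUnion (by
      intro v _ v' _ hvv
      rw [Function.onFun, Finset.disjoint_left]
      intro u hu hu'
      exact hvv (ab_unique hu hu')), hd, ht_inf x hx0 hx1, mul_zero, zero_add] at h1
    rw [ht_inf x hx0 hx1, mul_zero, zero_add]
    have h2 : ∑ v ∈ S', ∑ w ∈ ab L v, wt w * (q * Real.log (nrm (av w) x) -
        Real.log (av w (MvPolynomial.aeval x F))) ≤ r * C3 := h1
    rw [hS', hsum] at h2
    have h3 := abs_nonneg C
    refine h2.trans ?_
    linarith
  · obtain ⟨f, hf⟩ := exists_isNF hd (x 1 / x 0)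
    by_cases hfL : ∃ Λ ∈ 𝓛, f ∈ Λ
    · left
      obtain ⟨Λ, hΛ, hfΛ⟩ := hfL
      refine ⟨_, Finset.mem_image_of_mem _ hΛ, tw k r f, ⟨f, hfΛ, rfl⟩, ?_, nf_zero x hx1 f hf⟩
      intro h
      apply isNF_ne hf
      apply tw_inj r
      rw [h, map_zero]
    · right
      push Not at hfL
      have h1 := hmain L hd x hx1 hFx f hf hfL
      rw [hS', hsum] at h1
      refine h1.trans ?_
      have h2 : (2 * r - min t (2 * r) + ε) * logHeight x ≤ (2 + ε) * logHeight x +
          (Real.log |(discr L : ℝ)| - finrank k L * Real.log |(discr k : ℝ)|) := by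
        rcases le_total t (2 * r) with h | h
        · rw [min_eq_left h]
          linarith
        · rw [min_eq_right h]
          linarith
      linarith

end Pool.Agent.U937.Lin
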