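import Mathlib
import Pool.Agent.U937.LinE

/-!
No special linear systems for divisors with a set-transitive Galois action.
-/

set_option autoImplicit false
set_option linter.unusedSectionVars false

open Finset

namespace Pool.Agent.U937.Lin

open Module
open Pool.Agent.N750 (rk rk_empty rk_mono rk_indep bev)

variable {k K : Type} [Field k] [Field K] [Algebra k K]

theorem mem_coord {r n : ℕ} (Λ : Submodule k (Fin (r + 1) → k)) (idx : Fin n → Fin (r + 1))
    (a : Fin n → Fin (r + 1) → k) (h : ∀ x ∈ Λ, ∀ j, x j = ∑ i, a i j * x (idx i))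
    (G : Fin (r + 1) → K) (hG : G ∈ mem K Λ) :
    ∀ j, G j = ∑ i, algebraMap k K (a i j) * G (idx i) := by
  unfold mem at hG
  refine Submodule.span_induction (p := fun G _ => ∀ j, G j =
    ∑ i, algebraMap k K (a i j) * G (idx i)) ?_ ?_ ?_ ?_ hG
  · rintro _ ⟨c, hc, rfl⟩ j
    show algebraMap k K (c j) = _
    rw [h c hc j, map_sum]
    exact Finset.sum_congr rfl fun i _ => by rw [map_mul]
  · intro j
    simp
  · intro x y _ _ hx hy j
    show x j + y j = ∑ i, algebraMap k K (a i j) * (x (idx i) + y (idx i))
    rw [hx j, hy j, ← Finset.sum_add_distrib]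
    exact Finset.sum_congr rfl fun i _ => by ring
  · intro c x _ hx j
    show c * x j = ∑ i, algebraMap k K (a i j) * (c * x (idx i))
    rw [hx j, Finset.mul_sum]
    exact Finset.sum_congr rfl fun i _ => by ring

/-- conjugates of members are members -/
theorem mem_conj {r : ℕ} (Λ : Submodule k (Fin (r + 1) → k)) (σ : K ≃ₐ[k] K)
    (G : Fin (r + 1) → K) (hG : G ∈ mem K Λ) : (fun j => σ (G j)) ∈ mem K Λ := by
  unfold mem at hG ⊢
  refine Submodule.span_induction (p := fun G _ => (fun j => σ (G j)) ∈ mem K Λ) ?_ ?_ ?_ ?_ hG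
  · rintro _ ⟨c, hc, rfl⟩
    refine Submodule.subset_span ⟨c, hc, ?_⟩
    funext j
    exact (σ.commutes _).symm
  · have h1 : (fun j => σ ((0 : Fin (r + 1) → K) j)) = 0 := by
      funext j
      exact map_zero σ
    rw [h1]
    exact Submodule.zero_mem _
  · intro x y _ _ hx hy
    have h1 : (fun j => σ ((x + y) j)) = (fun j => σ (x j)) + fun j => σ (y j) := by
      funext j
      exact map_add σ _ _
    rw [h1]
    exact Submodule.add_mem _ hx hy
  · intro c x _ hx
    have h1 : (fun j => σ ((c • x) j)) = σ c • fun j => σ (x j) := by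
      funext j
      exact map_mul σ _ _
    rw [h1]
    exact Submodule.smul_mem _ _ hx

/-- the action of the automorphisms on the zeros is transitive on the sets of at most `r` zeros -/
def SetTrans (k : Type) {K : Type} [Field k] [Field K] [Algebra k K] {q : ℕ} (r : ℕ)
    (H : Fin q → Fin 2 → K) : Prop :=
  ∀ A B : Finset (Fin q), A.card = B.card → A.card ≤ r → ∃ σ : K ≃ₐ[k] K, ∀ s ∈ A, ∃ s' ∈ B,
    σ (H s 0) * H s' 1 = σ (H s 1) * H s' 0

/-- **no special linear systems** -/
theorem no_special {q r : ℕ} (hrq : r < q) (H : Fin q → Fin 2 → K)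
    (hD : ∀ i j, i ≠ j → H i 0 * H j 1 ≠ H i 1 * H j 0) (hne : ∀ i, H i ≠ 0)
    (hT : SetTrans k r H) (t : ℝ) (ht : t ≤ r - 1) (Λ : Submodule k (Fin (r + 1) → k)) :
    ¬ Sq H t Λ := by
  classical
  rintro ⟨h2, G, hG, hG0, A, hA, hlt⟩
  have hAr := card_le H hD hne G hG0 A hA
  have hmr : finrank k Λ ≤ r + 1 := by
    have := Submodule.finrank_le Λ
    rwa [Module.finrank_fin_fun] at this
  have hmA : finrank k Λ ≤ A.card := by
    have e1 : ((finrank k Λ + 2 * (r - A.card) : ℕ) : ℝ) < ((r + 1 : ℕ) : ℝ) := by
      push_cast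
      rw [Nat.cast_sub hAr]
      linarith
    have e2 : finrank k Λ + 2 * (r - A.card) < r + 1 := by exact_mod_cast e1
    omega
  obtain ⟨A', hA'A, hA'⟩ := Finset.exists_subset_card_eq hmA
  obtain ⟨n, idx, a, hn, ha, hδ, hcoord⟩ := exists_coord Λ
  -- the zeros on every set of `dim Λ` points
  have hall : ∀ B : Finset (Fin q), B.card = finrank k Λ → ∃ G' ∈ mem K Λ, G' ≠ 0 ∧
      ∀ s ∈ B, bev r G' (H s 1) (-H s 0) = 0 := by
    intro B hB
    obtain ⟨σ, hσ⟩ := hT A' B (by rw [hA', hB]) (by omega)
    choose! τ hτB hτ using hσ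
    have hinj : Set.InjOn τ A' := by
      intro s hs s' hs' h
      by_contra hss
      have e1 := hτ s hs
      have e2 := hτ s' hs'
      rw [← h] at e2
      have hne1 := hne (τ s)
      have e3 : σ (H s 0) * σ (H s' 1) = σ (H s 1) * σ (H s' 0) := by
        by_cases h0 : H (τ s) 0 = 0
        · have h1 : H (τ s) 1 ≠ 0 := by
            intro h1
            apply hne1
            funext i
            fin_cases i
            · exact h0
            · exact h1
          rw [h0, mul_zero] at e1 e2
          have e4 := (mul_eq_zero.1 e1).resolve_right h1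
          have e5 := (mul_eq_zero.1 e2).resolve_right h1
          rw [e4, e5, zero_mul, mul_zero]
        · apply mul_right_cancel₀ h0
          linear_combination -σ (H s 0) * e2 + σ (H s' 0) * e1
      rw [← map_mul, ← map_mul] at e3
      exact hD s s' hss (σ.injective e3)
    have himg : A'.image τ = B := by
      refine Finset.eq_of_subset_of_card_le ?_ ?_
      · intro s' hs'
        obtain ⟨s, hs, rfl⟩ := Finset.mem_image.1 hs'
        exact hτB s hs
      · rw [Finset.card_image_of_injOn hinj, hA', hB]
    refine ⟨fun j => σ (G j), mem_conj Λ σ G hG, ?_, ?_⟩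
    · intro h
      apply hG0
      funext j
      exact (map_eq_zero σ).1 (congrFun h j)
    · intro s' hs'
      rw [← himg] at hs'
      obtain ⟨s, hs, rfl⟩ := Finset.mem_image.1 hs'
      have e1 := hτ s hs
      have e2 := hA s (hA'A hs)
      have e3 : bev r (fun j => σ (G j)) (σ (H s 1)) (-σ (H s 0)) = 0 := by
        have := congrArg σ e2
        rw [map_zero] at this
        rw [← this]
        unfold bev
        rw [map_sum]
        refine Finset.sum_congr rfl fun j _ => ?_
        rw [map_mul, map_mul, map_pow, map_pow, map_neg]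
      -- the points are proportional
      have hs1 : σ (H s 0) ≠ 0 ∨ σ (H s 1) ≠ 0 := by
        by_contra hcon
        push Not at hcon
        apply hne s
        funext i
        fin_cases i
        · exact (map_eq_zero σ).1 hcon.1
        · exact (map_eq_zero σ).1 hcon.2
      obtain ⟨κ, hκ0, hκ1⟩ : ∃ κ : K, H (τ s) 0 = κ * σ (H s 0) ∧ H (τ s) 1 = κ * σ (H s 1) := by
        rcases hs1 with h | h
        · refine ⟨H (τ s) 0 / σ (H s 0), by field_simp, ?_⟩
          field_simp
          linear_combination e1
        · refine ⟨H (τ s) 1 / σ (H s 1), ?_, by field_simp⟩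
          field_simp
          linear_combination -e1
      have e4 : bev r (fun j => σ (G j)) (H (τ s) 1) (-H (τ s) 0) =
          κ ^ r * bev r (fun j => σ (G j)) (σ (H s 1)) (-σ (H s 0)) := by
        unfold bev
        rw [Finset.mul_sum]
        refine Finset.sum_congr rfl fun j _ => ?_
        have e5 : κ ^ r = κ ^ (j : ℕ) * κ ^ (r - (j : ℕ)) := by
          rw [← pow_add]
          congr 1
          have := j.2
          omega
        rw [hκ0, hκ1, e5, ← mul_neg, mul_pow, mul_pow]
        ring
      rw [e4, e3, mul_zero]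
  -- passage to the coordinates
  obtain ⟨w, rfl⟩ : ∃ w, n = w + 1 := ⟨n - 1, by omega⟩
  set B : Fin q → Fin (w + 1) → K := fun s l =>
    bev r (fun j => algebraMap k K (a l j)) (H s 1) (-H s 0) with hB
  have hbl : ∀ (l : Fin (w + 1) → K) (s : Fin q),
      bev r (fun j => ∑ i, algebraMap k K (a i j) * l i) (H s 1) (-H s 0) = ∑ i, l i * B s i := by
    intro l s
    rw [hB]
    unfold bev
    simp_rw [Finset.sum_mul, Finset.mul_sum]
    rw [Finset.sum_comm]
    exact Finset.sum_congr rfl fun l _ => Finset.sum_congr rfl fun j _ => by ring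
  have hrk : rk K B Finset.univ ≤ w := by
    by_contra hcon
    push Not at hcon
    obtain ⟨b, -, -, hb2, hb3⟩ := exists_linearIndepOn_extension (linearIndepOn_empty K B)
      (Set.subset_univ ∅)
    set b' : Finset (Fin q) := (Set.toFinite b).toFinset with hb'
    have hbb : (b' : Set (Fin q)) = b := Set.Finite.coe_toFinset _
    have h3 : rk K B b' = rk K B Finset.univ := by
      have hsp : Submodule.span K (B '' b) = Submodule.span K (B '' Set.univ) :=
        le_antisymm (Submodule.span_mono (Set.image_mono (Set.subset_univ _)))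
          (Submodule.span_le.2 hb2)
      unfold rk
      rw [hbb, Finset.coe_univ, hsp]
    have h4 : rk K B b' = b'.card := rk_indep B b' (by rw [hbb]; exact hb3)
    have h5 : rk K B Finset.univ ≤ w + 1 := by
      unfold rk
      refine (Submodule.finrank_le _).trans ?_
      rw [Module.finrank_fin_fun]
    obtain ⟨G', hG'm, hG'0, hG'z⟩ := hall b' (by omega)
    -- the relation
    have h6 := mem_coord Λ idx a hcoord G' hG'm
    have h7 : ∀ s ∈ b', ∑ i, G' (idx i) * B s i = 0 := by
      intro s hs
      rw [← hbl, ← hG'z s hs]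
      congr 1
      funext j
      exact (h6 j).symm
    have h8 : (fun i => G' (idx i)) ≠ 0 := by
      intro h
      apply hG'0
      funext j
      rw [h6 j]
      refine Finset.sum_eq_zero fun i _ => ?_
      rw [show G' (idx i) = 0 from congrFun h i, mul_zero]
    -- the functional vanishes on the span, which is everything
    have h9 : Submodule.span K (B '' (b' : Set (Fin q))) = ⊤ := by
      apply Submodule.eq_top_of_finrank_eq
      rw [Module.finrank_fin_fun]
      show rk K B b' = w + 1
      omega
    let φ : (Fin (w + 1) → K) →ₗ[K] K := ∑ i, G' (idx i) • LinearMap.proj i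
    have hφ : ∀ v, φ v = ∑ i, G' (idx i) * v i := by
      intro v
      show (∑ i, G' (idx i) • (LinearMap.proj i : (Fin (w + 1) → K) →ₗ[K] K)) v = _
      rw [LinearMap.sum_apply]
      rfl
    have h10 : (⊤ : Submodule K (Fin (w + 1) → K)) ≤ LinearMap.ker φ := by
      rw [← h9, Submodule.span_le]
      rintro _ ⟨s, hs, rfl⟩
      show φ (B s) = 0
      rw [hφ]
      exact h7 s hs
    apply h8
    funext i
    have h11 : φ (Pi.single i 1) = 0 := h10 Submodule.mem_top
    rw [hφ, Finset.sum_eq_single i] at h11
    · rw [Pi.single_eq_same, mul_one] at h11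
      exact h11
    · intro j _ hj
      rw [Pi.single_eq_of_ne hj, mul_zero]
    · intro h
      exact absurd (Finset.mem_univ _) h
  obtain ⟨l, hl0, hl⟩ := exists_rel B Finset.univ hrk
  have h3 := card_le H hD hne (fun j => ∑ i, algebraMap k K (a i j) * l i) (by
    intro h
    apply hl0
    funext i
    have h1 := congrFun h (idx i)
    simp only [hδ, Pi.zero_apply] at h1
    rw [Finset.sum_eq_single i] at h1
    · rw [if_pos rfl, map_one, one_mul] at h1
      exact h1
    · intro i' _ hi'
      rw [if_neg hi', map_zero, zero_mul]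
    · intro h
      exact absurd (Finset.mem_univ _) h) Finset.univ (fun s hs => by
    rw [hbl]
    exact hl s hs)
  rw [Finset.card_univ, Fintype.card_fin] at h3
  omega

end Pool.Agent.U937.Lin
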