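import Mathlib
import Pool.Agent.U937.LinF

/-!
Points of every degree on the line and linear systems of binary forms, without a condition on the
discriminant.
-/

set_option autoImplicit false
set_option linter.unusedSectionVars false

open Finset Filter Topology

namespace Pool.Agent.U937.Lin

open NumberField IsDedekindDomain Height Module
open Pool.Agent.W180.OP (Pl av wt nrm le_nrm nrm_pos wt_nonneg exists_nrm nrm_nonneg)
open Pool.Agent.N750 (rk rk_empty rk_mono rk_indep bev IsNF exists_isNF isNF_ne full_closed map_bev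
  ab ab_unique triv_bound sum_places log_diff vand_indep rk_ge)

variable {k K : Type} [Field k] [NumberField k] [Field K] [NumberField K] [Algebra k K]

open Classical in
/-- **points of degree `r` and linear systems** -/
theorem main2 {q r : ℕ} (F : MvPolynomial (Fin 2) k) (H : Fin q → Fin 2 → K)
    (hF : F.map (algebraMap k K) = ∏ i, ∑ j, MvPolynomial.C (H i j) * MvPolynomial.X j)
    (hD : ∀ i j, i ≠ j → H i 0 * H j 1 ≠ H i 1 * H j 0)
    (S : Finset (HeightOneSpectrum (𝓞 k))) (t : ℝ) (hrq : r ≤ q ∨ t ≤ r) (ε : ℝ) (hε : 0 < ε) :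
    ∃ (𝓛 : Finset (Submodule k (Fin (r + 1) → k))) (C : ℝ), 0 ≤ C ∧ (∀ Λ ∈ 𝓛, Sq H t Λ) ∧
      ((q : ℝ) ≤ 2 * r - t → 𝓛 = ∅) ∧
      ∀ (L : Type) [Field L] [NumberField L] [Algebra k L], finrank k L = r →
      ∀ (x : Fin 2 → L), x ≠ 0 → MvPolynomial.aeval x F ≠ 0 →
      (∃ Λ ∈ 𝓛, ∃ c ∈ Λ, c ≠ 0 ∧ bev r (fun j => algebraMap k L (c j)) (x 0) (x 1) = 0) ∨
      ∑ w : InfinitePlace L, (w.mult : ℝ) * (q * Real.log (nrm w.1 x) -
          Real.log (w (MvPolynomial.aeval x F))) +
        ∑ᶠ w ∈ {w : HeightOneSpectrum (𝓞 L) | ∃ v ∈ S, w.asIdeal.LiesOver v.asIdeal},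
          (q * Real.log (nrm (FinitePlace.mk w).1 x) -
            Real.log (FinitePlace.mk w (MvPolynomial.aeval x F))) ≤
        (2 + ε) * logHeight x +
          max (Real.log |(discr L : ℝ)| - finrank k L * Real.log |(discr k : ℝ)|)
            ((2 * r - 2 - t) * logHeight x) + C := by
  classical
  have hFq := hom_of F H hF
  set S' := (Finset.univ : Finset (InfinitePlace k)).disjSum S with hS'
  obtain ⟨C3, hC3, htriv⟩ := triv_bound F hFq
  by_cases hqt : (q : ℝ) ≤ 2 * r - t
  · refine ⟨∅, r * C3, by positivity, by simp, fun _ => rfl, ?_⟩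
    intro L _ _ _ hd x hx0 hFx
    right
    have hh0 : 0 ≤ logHeight x := logHeight_nonneg _
    have hsum := sum_places S (L := L) (fun w => wt w * (q * Real.log (nrm (av w) x) -
          Real.log (av w (MvPolynomial.aeval x F))))
    have hfin : ∀ w : HeightOneSpectrum (𝓞 L), wt (Sum.inr w : Pl L) *
        (q * Real.log (nrm (av (Sum.inr w)) x) - Real.log (av (Sum.inr w) (MvPolynomial.aeval x F))) =
        q * Real.log (nrm (FinitePlace.mk w).1 x) -
              Real.log (FinitePlace.mk w (MvPolynomial.aeval x F)) := by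
      intro w
      have : wt (Sum.inr w : Pl L) = 1 := rfl
      rw [this, one_mul]
      rfl
    simp only [hfin] at hsum
    have h1 := htriv L x hx0 hFx (S'.biUnion (ab L))
    rw [Finset.sum_biUnion (by
      intro v _ v' _ hvv
      rw [Function.onFun, Finset.disjoint_left]
      intro u hu hu'
      exact hvv (ab_unique hu hu')), hd] at h1
    have h2 : ∑ v ∈ S', ∑ w ∈ ab L v, wt w * (q * Real.log (nrm (av w) x) -
        Real.log (av w (MvPolynomial.aeval x F))) ≤ q * logHeight x + r * C3 := h1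
    rw [hS', hsum] at h2
    refine h2.trans ?_
    have h3 : (q : ℝ) * logHeight x ≤ (2 * r - t) * logHeight x :=
      mul_le_mul_of_nonneg_right hqt hh0
    have h4 := le_max_right (Real.log |(discr L : ℝ)| - finrank k L * Real.log |(discr k : ℝ)|)
      ((2 * r - 2 - t) * logHeight x)
    have h5 : 0 ≤ ε * logHeight x := mul_nonneg hε.le hh0
    linarith
  push Not at hqt
  have hrq' : r ≤ q := by
    rcases hrq with h | h
    · exact h
    · have h1 : (r : ℝ) < q := by linarith
      exact_mod_cast h1.le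
  obtain ⟨𝓛, C, hL, hmain⟩ := core hrq' F H hF hFq hD S' (min t (2 * r)) (min_le_right _ _) ε hε
  refine ⟨𝓛.image fun Λ => Λ.map (tw k r), |C| + r * C3, by positivity, ?_,
    fun h => absurd h (not_le.2 hqt), ?_⟩
  · intro Λ hΛ
    obtain ⟨Λ', hΛ', rfl⟩ := Finset.mem_image.1 hΛ
    exact sq_of_sp H (min_le_left _ _) Λ' (hL Λ' hΛ')
  intro L _ _ _ hd x hx0 hFx
  have hdisc0 : 0 ≤ Real.log |(discr L : ℝ)| - finrank k L * Real.log |(discr k : ℝ)| := by
    rw [← log_diff]
    exact Real.log_natCast_nonneg _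
  have hmax0 := hdisc0.trans (le_max_left
    (Real.log |(discr L : ℝ)| - finrank k L * Real.log |(discr k : ℝ)|)
      ((2 * r - 2 - t) * logHeight x))
  have hmax1 := le_max_right (Real.log |(discr L : ℝ)| - finrank k L * Real.log |(discr k : ℝ)|)
      ((2 * r - 2 - t) * logHeight x)
  have hh0 : 0 ≤ logHeight x := logHeight_nonneg _
  have hsum := sum_places S (L := L) (fun w => wt w * (q * Real.log (nrm (av w) x) -
        Real.log (av w (MvPolynomial.aeval x F))))
  have hfin : ∀ w : HeightOneSpectrum (𝓞 L), wt (Sum.inr w : Pl L) *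
      (q * Real.log (nrm (av (Sum.inr w)) x) - Real.log (av (Sum.inr w) (MvPolynomial.aeval x F))) =
      q * Real.log (nrm (FinitePlace.mk w).1 x) -
            Real.log (FinitePlace.mk w (MvPolynomial.aeval x F)) := by
    intro w
    have : wt (Sum.inr w : Pl L) = 1 := rfl
    rw [this, one_mul]
    rfl
  simp only [hfin] at hsum
  have hC' : C ≤ |C| := le_abs_self C
  have hrC : 0 ≤ (r : ℝ) * C3 := mul_nonneg (Nat.cast_nonneg _) hC3
  by_cases hx1 : x 0 = 0
  · right
    have h1 := htriv L x hx0 hFx (S'.biUnion (ab L))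
    rw [Finset.sum_biUnion (by
      intro v _ v' _ hvv
      rw [Function.onFun, Finset.disjoint_left]
      intro u hu hu'
      exact hvv (ab_unique hu hu')), hd, ht_inf x hx0 hx1, mul_zero, zero_add] at h1
    have h2 : ∑ v ∈ S', ∑ w ∈ ab L v, wt w * (q * Real.log (nrm (av w) x) -
        Real.log (av w (MvPolynomial.aeval x F))) ≤ r * C3 := h1
    rw [hS', hsum] at h2
    have h3 := abs_nonneg C
    refine h2.trans ?_
    have h4 : 0 ≤ (2 + ε) * logHeight x := mul_nonneg (by linarith) hh0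
    linarith
  · obtain ⟨f, hf⟩ := exists_isNF hd (x 1 / x 0)
    by_cases hfL : ∃ Λ ∈ 𝓛, f ∈ Λ
    · left
      obtain ⟨Λ, hΛ, hfΛ⟩ := hfL
      refine ⟨_, Finset.mem_image_of_mem _ hΛ, tw k r f, ⟨f, hfΛ, rfl⟩, ?_, nf_zero x hx1 f hf⟩
      intro h
      apply isNF_ne hf
      apply tw_inj r
      rw [h, map_zero]
    · right
      push Not at hfL
      have h1 := hmain L hd x hx1 hFx f hf hfL
      rw [hS', hsum] at h1
      refine h1.trans ?_
      have h2 : (2 * r - min t (2 * r) + ε) * logHeight x ≤ (2 + ε) * logHeight x +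
          max (Real.log |(discr L : ℝ)| - finrank k L * Real.log |(discr k : ℝ)|)
            ((2 * r - 2 - t) * logHeight x) := by
        rcases le_total t (2 * r) with h | h
        · rw [min_eq_left h]
          linarith
        · rw [min_eq_right h]
          have h4 : 0 ≤ 2 * logHeight x := by linarith
          linarith
      linarith

open Classical in
/-- **points of all degrees and linear systems** -/
theorem main3 {q : ℕ} (r : ℕ) (F : MvPolynomial (Fin 2) k) (H : Fin q → Fin 2 → K)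
    (hF : F.map (algebraMap k K) = ∏ i, ∑ j, MvPolynomial.C (H i j) * MvPolynomial.X j)
    (hne : ∀ i, H i ≠ 0) (hD : ∀ i j, i ≠ j → H i 0 * H j 1 ≠ H i 1 * H j 0)
    (S : Finset (HeightOneSpectrum (𝓞 k))) (t : ℕ → ℝ) (hrq : ∀ d ≤ r, d ≤ q ∨ t d ≤ d) (ε : ℝ)
    (hε : 0 < ε) :
    ∃ (𝓛 : (d : ℕ) → Finset (Submodule k (Fin (d + 1) → k))) (C : ℝ), 0 ≤ C ∧
      (∀ d, ∀ Λ ∈ 𝓛 d, Sq H (t d) Λ) ∧
      (SetTrans k r H → ∀ d ≤ r, t d ≤ d - 1 → 𝓛 d = ∅) ∧
      ∀ (L : Type) [Field L] [NumberField L] [Algebra k L], finrank k L ≤ r →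
      ∀ (x : Fin 2 → L), x ≠ 0 → MvPolynomial.aeval x F ≠ 0 →
      (∃ Λ ∈ 𝓛 (finrank k L), ∃ c ∈ Λ, c ≠ 0 ∧
        bev (finrank k L) (fun j => algebraMap k L (c j)) (x 0) (x 1) = 0) ∨
      ∑ w : InfinitePlace L, (w.mult : ℝ) * (q * Real.log (nrm w.1 x) -
          Real.log (w (MvPolynomial.aeval x F))) +
        ∑ᶠ w ∈ {w : HeightOneSpectrum (𝓞 L) | ∃ v ∈ S, w.asIdeal.LiesOver v.asIdeal},
          (q * Real.log (nrm (FinitePlace.mk w).1 x) -
            Real.log (FinitePlace.mk w (MvPolynomial.aeval x F))) ≤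
        (2 + ε) * logHeight x +
          max (Real.log |(discr L : ℝ)| - finrank k L * Real.log |(discr k : ℝ)|)
            ((2 * finrank k L - 2 - t (finrank k L)) * logHeight x) + C := by
  classical
  have key : ∀ d : ℕ, ∃ (𝓛 : Finset (Submodule k (Fin (d + 1) → k))) (C : ℝ), 0 ≤ C ∧
      (∀ Λ ∈ 𝓛, Sq H (t d) Λ) ∧
      (SetTrans k r H → d ≤ r → t d ≤ d - 1 → 𝓛 = ∅) ∧
      (d ≤ r → ∀ (L : Type) [Field L] [NumberField L] [Algebra k L], finrank k L = d →
      ∀ (x : Fin 2 → L), x ≠ 0 → MvPolynomial.aeval x F ≠ 0 →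
      (∃ Λ ∈ 𝓛, ∃ c ∈ Λ, c ≠ 0 ∧
        bev d (fun j => algebraMap k L (c j)) (x 0) (x 1) = 0) ∨
      ∑ w : InfinitePlace L, (w.mult : ℝ) * (q * Real.log (nrm w.1 x) -
          Real.log (w (MvPolynomial.aeval x F))) +
        ∑ᶠ w ∈ {w : HeightOneSpectrum (𝓞 L) | ∃ v ∈ S, w.asIdeal.LiesOver v.asIdeal},
          (q * Real.log (nrm (FinitePlace.mk w).1 x) -
            Real.log (FinitePlace.mk w (MvPolynomial.aeval x F))) ≤
        (2 + ε) * logHeight x +
          max (Real.log |(discr L : ℝ)| - finrank k L * Real.log |(discr k : ℝ)|)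
            ((2 * d - 2 - t d) * logHeight x) + C) := by
    intro d
    by_cases hdr : d ≤ r
    · obtain ⟨𝓛, C, hC, h1, h2, h3⟩ := main2 (r := d) F H hF hD S (t d) (hrq d hdr) ε hε
      refine ⟨𝓛, C, hC, h1, ?_, fun _ => h3⟩
      intro hT _ htd
      by_cases hqt : (q : ℝ) ≤ 2 * d - t d
      · exact h2 hqt
      push Not at hqt
      have hdq : d < q := by
        have h4 : (d : ℝ) < q := by
          have h5 : (0 : ℝ) ≤ 1 := zero_le_one
          linarith
        exact_mod_cast h4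
      rw [Finset.eq_empty_iff_forall_notMem]
      intro Λ hΛ
      exact no_special (k := k) hdq H hD hne (fun A B hAB hA => hT A B hAB (hA.trans hdr)) (t d) htd
        Λ (h1 Λ hΛ)
    · exact ⟨∅, 0, le_rfl, by simp, fun _ h => absurd h hdr, fun h => absurd h hdr⟩
  choose 𝓛 C hC h1 h2 h3 using key
  refine ⟨𝓛, ∑ d ∈ Finset.range (r + 1), C d, Finset.sum_nonneg fun d _ => hC d, h1,
    fun hT d hd ht => h2 d hT hd ht, ?_⟩
  intro L _ _ _ hd x hx0 hFx
  rcases h3 (finrank k L) hd L rfl x hx0 hFx with h | h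
  · exact Or.inl h
  right
  refine h.trans ?_
  have h4 : C (finrank k L) ≤ ∑ d ∈ Finset.range (r + 1), C d :=
    Finset.single_le_sum (fun d _ => hC d) (Finset.mem_range.2 (Nat.lt_succ_of_le hd))
  linarith

end Pool.Agent.U937.Lin
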